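import Mathlib
import Pool.Agent.H434R2.PO

/-!
The numbers `d_n(i) = C(n,i) C(n+i,i)`, their contiguous relations, and the closed double sum for
`∑_{k<n} (2k+1) (-1)^k A_k(1/4)`.
-/

set_option autoImplicit false

namespace Pool.Agent.Q277.DC

open Finset

/-- `d_n(i) = C(n,i) C(n+i,i)`. -/
def d (n i : ℕ) : ℕ := n.choose i * (n + i).choose i

theorem d_zero (n : ℕ) : d n 0 = 1 := by simp [d]

theorem d_gt (n i : ℕ) (h : n < i) : d n i = 0 := by simp [d, Nat.choose_eq_zero_of_lt h]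

theorem R1 (n i : ℕ) : ((n : ℤ) + 1 - i) * d (n + 1) i = ((n : ℤ) + 1 + i) * d n i := by
  rcases lt_or_ge (n + 1) i with h | h
  · rw [d_gt _ _ h, d_gt _ _ (by omega)]; simp
  · have h1 := Nat.choose_mul_succ_eq n i
    have h2 := Nat.choose_mul_succ_eq (n + i) i
    rw [show n + i + 1 - i = n + 1 by omega] at h2
    have h1' : (n.choose i : ℤ) * (n + 1) = (n + 1).choose i * ((n : ℤ) + 1 - i) := by
      have := congrArg (Nat.cast : ℕ → ℤ) h1
      rw [Nat.cast_mul, Nat.cast_mul, Nat.cast_sub h] at this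
      push_cast at this
      exact this
    have h2' : ((n + i).choose i : ℤ) * (n + i + 1) = (n + i + 1).choose i * ((n : ℤ) + 1) := by
      exact_mod_cast h2
    have hn : ((n : ℤ) + 1) ≠ 0 := by positivity
    apply mul_right_cancel₀ hn
    unfold d
    rw [show n + 1 + i = n + i + 1 by ring]
    push_cast
    linear_combination (-((n + i + 1).choose i : ℤ) * (n + 1)) * h1' - (n.choose i : ℤ) * (n + 1) * h2'

theorem R2 (n i : ℕ) : ((i : ℤ) + 1) ^ 2 * d n (i + 1) = ((n : ℤ) - i) * (n + i + 1) * d n i := by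
  rcases lt_or_ge n i with h | h
  · rw [d_gt _ _ h, d_gt _ _ (by omega)]; simp
  · have h1 := Nat.choose_succ_right_eq n i
    have h2 := Nat.add_one_mul_choose_eq (n + i) i
    have h1' : (n.choose (i + 1) : ℤ) * (i + 1) = n.choose i * ((n : ℤ) - i) := by
      have := congrArg (Nat.cast : ℕ → ℤ) h1
      rw [Nat.cast_mul, Nat.cast_mul, Nat.cast_sub h] at this
      push_cast at this
      exact this
    have h2' : ((n : ℤ) + i + 1) * (n + i).choose i = (n + i + 1).choose (i + 1) * ((i : ℤ) + 1) := by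
      exact_mod_cast h2
    unfold d
    rw [show n + (i + 1) = n + i + 1 by ring]
    push_cast
    linear_combination ((n + i + 1).choose (i + 1) : ℤ) * (i + 1) * h1'
      - (n.choose i : ℤ) * (n - i) * h2'

/-- `n d_{n-1}(i+1) = (n-2(i+1)) d_n(i+1) + 2 (n-i) d_n(i)`, `n = N+1`. -/
theorem rel1 (N i : ℕ) : ((N : ℤ) + 1) * d N (i + 1) =
    ((N : ℤ) + 1 - 2 * (i + 1)) * d (N + 1) (i + 1) + 2 * ((N : ℤ) + 1 - i) * d (N + 1) i := by
  have h1 := R1 N (i + 1)
  have h2 := R2 (N + 1) i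
  push_cast at h1 h2
  have hn : ((N : ℤ) + 2 + i) ≠ 0 := by positivity
  apply mul_left_cancel₀ hn
  linear_combination (-((N : ℤ) + 1)) * h1 + 2 * h2

/-- `n d_n(i+1) = (n+2(i+1)) d_{n-1}(i+1) + 2 (n+i) d_{n-1}(i)`, `n = N+1`. -/
theorem rel2 (N i : ℕ) : ((N : ℤ) + 1) * d (N + 1) (i + 1) =
    ((N : ℤ) + 1 + 2 * (i + 1)) * d N (i + 1) + 2 * ((N : ℤ) + 1 + i) * d N i := by
  have h1 := R1 N (i + 1)
  have h2 := R2 N i
  push_cast at h1 h2
  rcases eq_or_ne N i with rfl | hne
  · rw [d_gt N (N + 1) (by omega)]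
    have h := Nat.succ_mul_centralBinom_succ N
    have e1 : d (N + 1) (N + 1) = (N + 1).centralBinom := by
      simp [d, Nat.centralBinom]; congr 1; ring
    have e2 : d N N = N.centralBinom := by
      simp [d, Nat.centralBinom]; congr 1; ring
    rw [e1, e2]
    have h' : ((N : ℤ) + 1) * ((N + 1).centralBinom : ℤ) = 2 * (2 * N + 1) * N.centralBinom := by
      exact_mod_cast h
    linear_combination h'
  · have hn : ((N : ℤ) - i) ≠ 0 := by
      intro h; apply hne; have : (N : ℤ) = i := by linarith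
      exact_mod_cast this
    apply mul_left_cancel₀ hn
    linear_combination ((N : ℤ) + 1) * h1 + 2 * h2

theorem rel3 (N i : ℕ) : ((N : ℤ) + 2) * d (N + 2) (i + 1) + ((N : ℤ) + 1) * d N (i + 1) =
    (2 * (N : ℤ) + 3) * (d (N + 1) (i + 1) + 2 * d (N + 1) i) := by
  have h1 := rel1 N i
  have h2 := rel2 (N + 1) i
  push_cast at h2
  rw [show N + 1 + 1 = N + 2 by ring] at h2
  linear_combination h1 + h2

/-- `i d_n(i) = n C(n-1,i-1) C(n+i,i)`. -/
theorem e1 (N i : ℕ) : (i + 1) * d (N + 1) (i + 1) =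
    (N + 1) * (N.choose i * (N + 1 + (i + 1)).choose (i + 1)) := by
  have h := Nat.add_one_mul_choose_eq N i
  unfold d
  calc (i + 1) * ((N + 1).choose (i + 1) * (N + 1 + (i + 1)).choose (i + 1)) =
      ((N + 1).choose (i + 1) * (i + 1)) * (N + 1 + (i + 1)).choose (i + 1) := by ring
    _ = _ := by rw [← h]; ring

/-- `i d_{n-1}(i) = n C(n-1,i) C(n+i-1,i-1)`. -/
theorem e2 (N i : ℕ) : (i + 1) * d N (i + 1) =
    (N + 1) * (N.choose (i + 1) * (N + (i + 1)).choose i) := by
  have h := Nat.choose_succ_right_eq (N + (i + 1)) i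
  rw [show N + (i + 1) - i = N + 1 by omega] at h
  unfold d
  calc (i + 1) * (N.choose (i + 1) * (N + (i + 1)).choose (i + 1)) =
      N.choose (i + 1) * ((N + (i + 1)).choose (i + 1) * (i + 1)) := by ring
    _ = _ := by rw [h]; ring

/-- `u_n(i) = d_n(i) (-1/2)^i`. -/
noncomputable def u (n i : ℕ) : ℚ := d n i * (-1 / 2) ^ i

theorem u_gt (n i : ℕ) (h : n < i) : u n i = 0 := by simp [u, d_gt n i h]

theorem u_zero (n : ℕ) : u n 0 = 1 := by simp [u, d_zero]

/-- shift. -/
noncomputable def sh (v : ℕ → ℚ) (i : ℕ) : ℚ := if i = 0 then 0 else v (i - 1)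

theorem u_rec (N i : ℕ) : ((N : ℚ) + 2) * u (N + 2) i + ((N : ℚ) + 1) * u N i =
    (2 * (N : ℚ) + 3) * (u (N + 1) i - sh (u (N + 1)) i) := by
  rcases i with _ | i
  · simp [u_zero, sh]; ring
  · have h := rel3 N i
    have h' := congrArg (Int.cast : ℤ → ℚ) h
    push_cast at h'
    simp only [u, sh, Nat.add_sub_cancel, if_neg (Nat.succ_ne_zero i), pow_succ]
    linear_combination ((-1 / 2) ^ i * (-1 / 2)) * h'

theorem sum_sh (m : ℕ) (v g : ℕ → ℚ) (hv : v m = 0) :
    ∑ i ∈ range (m + 1), sh v i * g i = ∑ i ∈ range (m + 1), v i * g (i + 1) := by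
  rw [sum_range_succ', sum_range_succ _ m, hv]
  simp [sh]

/-- `|i - j|`. -/
def ab (i j : ℕ) : ℚ := ((|(i : ℤ) - j| : ℤ) : ℚ)

theorem ab_comm (i j : ℕ) : ab i j = ab j i := by
  unfold ab; rw [abs_sub_comm]

theorem ab_two (i j : ℕ) : 2 * ab i j - ab (i + 1) j - ab (j + 1) i = if i = j then -2 else 0 := by
  unfold ab
  have : 2 * |(i : ℤ) - j| - |((i + 1 : ℕ) : ℤ) - j| - |((j + 1 : ℕ) : ℤ) - i| =
      if i = j then -2 else 0 := by
    push_cast
    split_ifs with h
    · subst h; simp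
    · rcases lt_or_gt_of_ne h with h | h
      · rw [abs_of_neg (by omega), abs_of_nonpos (by omega), abs_of_pos (by omega)]; ring
      · rw [abs_of_pos (by omega), abs_of_pos (by omega), abs_of_nonpos (by omega)]; ring
  have h2 := congrArg (Int.cast : ℤ → ℚ) this
  push_cast at h2 ⊢
  rw [h2]

/-- `∑_{i,j<M} |i-j| v_i w_j`. -/
noncomputable def B (M : ℕ) (v w : ℕ → ℚ) : ℚ := ∑ i ∈ range M, ∑ j ∈ range M, ab i j * (v i * w j)

theorem B_comm (M : ℕ) (v w : ℕ → ℚ) : B M v w = B M w v := by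
  unfold B
  rw [sum_comm]
  refine sum_congr rfl fun i _ => sum_congr rfl fun j _ => ?_
  rw [ab_comm]; ring

theorem B_sh (m : ℕ) (v : ℕ → ℚ) (hv : v m = 0) :
    B (m + 1) v v - B (m + 1) (sh v) v = - ∑ i ∈ range (m + 1), v i ^ 2 := by
  have e1 : B (m + 1) (sh v) v = ∑ i ∈ range (m + 1), ∑ j ∈ range (m + 1), ab (i + 1) j * (v i * v j) := by
    have h1 : B (m + 1) (sh v) v = ∑ i ∈ range (m + 1), sh v i * (∑ j ∈ range (m + 1), ab i j * v j) := by
      unfold B
      refine sum_congr rfl fun i _ => ?_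
      rw [mul_sum]
      refine sum_congr rfl fun j _ => ?_
      ring
    rw [h1, sum_sh m v _ hv]
    refine sum_congr rfl fun i _ => ?_
    rw [mul_sum]
    refine sum_congr rfl fun j _ => ?_
    ring
  have e2 : B (m + 1) (sh v) v = ∑ i ∈ range (m + 1), ∑ j ∈ range (m + 1), ab (j + 1) i * (v i * v j) := by
    rw [e1, sum_comm]
    refine sum_congr rfl fun i _ => sum_congr rfl fun j _ => ?_
    ring
  have e3 : 2 * B (m + 1) v v - B (m + 1) (sh v) v - B (m + 1) (sh v) v =
      - 2 * ∑ i ∈ range (m + 1), v i ^ 2 := by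
    nth_rewrite 2 [e1]
    rw [e2]
    unfold B
    rw [mul_sum, ← sum_sub_distrib, ← sum_sub_distrib, mul_sum]
    refine sum_congr rfl fun i hi => ?_
    rw [mul_sum, ← sum_sub_distrib, ← sum_sub_distrib]
    have : ∀ j ∈ range (m + 1), 2 * (ab i j * (v i * v j)) - ab (j + 1) i * (v i * v j) -
        ab (i + 1) j * (v i * v j) = if i = j then -2 * (v i * v j) else 0 := by
      intro j _
      have h := ab_two i j
      split_ifs at h ⊢ with hij
      · linear_combination (v i * v j) * h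
      · linear_combination (v i * v j) * h
    rw [sum_congr rfl this, sum_ite_eq, if_pos hi]
    ring
  linear_combination (1 / 2) * e3

theorem B_lin (M : ℕ) (a b : ℚ) (v w z : ℕ → ℚ) :
    B M (fun i => a * v i + b * w i) z = a * B M v z + b * B M w z := by
  unfold B
  rw [mul_sum, mul_sum, ← sum_add_distrib]
  refine sum_congr rfl fun i _ => ?_
  rw [mul_sum, mul_sum, ← sum_add_distrib]
  refine sum_congr rfl fun j _ => ?_
  ring

theorem B_rec (N M : ℕ) (hM : N + 3 ≤ M) :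
    ((N : ℚ) + 2) * B M (u (N + 2)) (u (N + 1)) + ((N : ℚ) + 1) * B M (u (N + 1)) (u N) =
      - ((2 * (N : ℚ) + 3) * ∑ i ∈ range M, u (N + 1) i ^ 2) := by
  obtain ⟨m, rfl⟩ : ∃ m, M = m + 1 := ⟨M - 1, by omega⟩
  have hv : u (N + 1) m = 0 := u_gt _ _ (by omega)
  have h := B_sh m (u (N + 1)) hv
  rw [B_comm (m + 1) (u (N + 1)) (u N)]
  have e1 := B_lin (m + 1) ((N : ℚ) + 2) ((N : ℚ) + 1) (u (N + 2)) (u N) (u (N + 1))
  have e2 := B_lin (m + 1) (2 * (N : ℚ) + 3) (-(2 * (N : ℚ) + 3)) (u (N + 1)) (sh (u (N + 1))) (u (N + 1))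
  have e3 : (fun i => ((N : ℚ) + 2) * u (N + 2) i + ((N : ℚ) + 1) * u N i) =
      fun i => (2 * (N : ℚ) + 3) * u (N + 1) i + (-(2 * (N : ℚ) + 3)) * sh (u (N + 1)) i := by
    funext i
    rw [u_rec]; ring
  rw [e3, e2] at e1
  linear_combination -e1 + (2 * (N : ℚ) + 3) * h

/-- `A_n(1/4)`. -/
noncomputable def A (n : ℕ) : ℚ :=
  ∑ k ∈ range (n + 1), (n.choose k : ℚ) ^ 2 * ((n + k).choose k : ℚ) ^ 2 * (1 / 4) ^ k

theorem A_eq (n M : ℕ) (hM : n + 1 ≤ M) : A n = ∑ i ∈ range M, u n i ^ 2 := by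
  have h : ∑ i ∈ range (n + 1), u n i ^ 2 = ∑ i ∈ range M, u n i ^ 2 := by
    apply sum_subset
    · intro x hx
      simp only [mem_range] at hx ⊢
      omega
    · intro x _ hx
      simp only [mem_range, not_lt] at hx
      rw [u_gt n x (by omega)]; ring
  rw [← h]
  unfold A u d
  refine sum_congr rfl fun k _ => ?_
  push_cast
  rw [mul_pow, ← pow_mul, mul_comm k 2, pow_mul, mul_pow]
  norm_num

/-- the sum of the problem. -/
noncomputable def T (n : ℕ) : ℚ := ∑ k ∈ range n, (2 * (k : ℚ) + 1) * (-1) ^ k * A k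

theorem T_eq (N M : ℕ) (hM : N + 2 ≤ M) :
    T (N + 1) = (-1) ^ (N + 1) * ((N : ℚ) + 1) * B M (u (N + 1)) (u N) := by
  induction N with
  | zero =>
    have h1 : T 1 = 1 := by simp [T, A]
    have h2 : B M (u 1) (u 0) = -1 := by
      unfold B
      have : ∀ i ∈ range M, ∑ j ∈ range M, ab i j * (u 1 i * u 0 j) = if i = 1 then -1 else 0 := by
        intro i _
        rw [sum_eq_single 0]
        · split_ifs with h
          · subst h; simp [ab, u, d]; norm_num
          · rcases i with _ | i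
            · simp [ab]
            · rw [u_gt 1 (i + 1) (by omega)]; simp
        · intro j _ hj
          rw [u_gt 0 j (by omega)]; simp
        · intro h; exact absurd (mem_range.2 (by omega)) h
      rw [sum_congr rfl this, sum_ite_eq', if_pos (mem_range.2 (by omega))]
    rw [h1, h2]; norm_num
  | succ N ih =>
    have ih := ih (by omega)
    have h1 : T (N + 1 + 1) = T (N + 1) + (2 * ((N + 1 : ℕ) : ℚ) + 1) * (-1) ^ (N + 1) * A (N + 1) := by
      unfold T; rw [sum_range_succ]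
    have h2 := B_rec N M (by omega)
    rw [h1, ih, A_eq (N + 1) M (by omega)]
    push_cast
    rw [show N + 1 + 1 = N + 2 by ring, pow_succ]
    linear_combination (-1) ^ (N + 1) * h2

end Pool.Agent.Q277.DC
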