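import Pool.Agent.Q277.DC.Two

/-!
Denominator and numerator of `s(n)`.
-/

set_option autoImplicit false

namespace Pool.Agent.Q277.DC

open Finset Pool.Agent.H434R2

theorem PO_dvd {q k : ℕ} [Fact q.Prime] {z : ℤ} (h : PO q k (z : ℚ)) : (q : ℤ) ^ k ∣ z := by
  have := padicNorm.dvd_iff_norm_le (p := q) (n := k) (z := z) |>.2 h
  exact_mod_cast this

theorem int_of_PO (x : ℚ) (h : ∀ q : ℕ, [Fact q.Prime] → PO q 0 x) : ∃ z : ℤ, x = z := by
  refine ⟨x.num, ?_⟩
  have hd : x.den = 1 := by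
    by_contra hne
    obtain ⟨q, hq, hdvd⟩ := Nat.exists_prime_and_dvd hne
    have : Fact q.Prime := ⟨hq⟩
    have h1 : padicNorm q x ≤ 1 := by
      have := h q
      unfold PO at this
      simpa using this
    have h2 := PO.den_of_norm h1
    have h3 := (Nat.Prime.coprime_iff_not_dvd hq).1 h2.symm
    exact h3 hdvd
  exact (Rat.coe_int_num_of_den_eq_one hd).symm

/-- recover numerator and denominator. -/
theorem num_den_of (x : ℚ) (k : ℕ) (h2 : PO 2 1 ((2 : ℚ) ^ k * x - 1))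
    (hodd : ∀ q : ℕ, [Fact q.Prime] → q ≠ 2 → PO q 0 x) :
    x.den = 2 ^ k ∧ (x.num : ℚ) = 2 ^ k * x := by
  have hint : ∃ z : ℤ, (2 : ℚ) ^ k * x = z := by
    apply int_of_PO
    intro q hq
    by_cases hq2 : q = 2
    · subst hq2
      have := (h2.mono (Nat.zero_le _)).add PO.one
      rwa [sub_add_cancel] at this
    · have h3 : PO q 0 ((2 : ℚ) ^ k) := by
        have := (PO.of_nat (p := q) 2).pow0 k
        exact_mod_cast this
      exact h3.mul0 (hodd q hq2)
  obtain ⟨z, hz⟩ := hint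
  have hz2 : (2 : ℤ) ∣ z - 1 := by
    have h4 : PO 2 1 (((z - 1 : ℤ)) : ℚ) := by
      push_cast
      rw [← hz]; exact h2
    have := PO_dvd h4
    simpa using this
  have hx : x = ((z : ℤ) : ℚ) / (((2 : ℤ) ^ k : ℤ) : ℚ) := by
    push_cast
    rw [← hz]
    field_simp
  have hcop : Nat.Coprime z.natAbs ((2 : ℤ) ^ k).natAbs := by
    rw [Int.natAbs_pow]
    apply Nat.Coprime.pow_right
    have : ¬ 2 ∣ z.natAbs := by
      intro h
      have : (2 : ℤ) ∣ z := by
        have := Int.natCast_dvd.2 h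
        simpa using this
      omega
    exact ((Nat.Prime.coprime_iff_not_dvd Nat.prime_two).2 this).symm
  have hpos : (0 : ℤ) < (2 : ℤ) ^ k := by positivity
  have hn := Rat.num_div_eq_of_coprime hpos hcop
  have hd := Rat.den_div_eq_of_coprime hpos hcop
  rw [← hx] at hn hd
  refine ⟨by exact_mod_cast hd, ?_⟩
  rw [hn, hz]

theorem s_two' (N : ℕ) : PO 2 1 ((2 : ℚ) ^ (2 * nu (N + 1)) * s (N + 1) - 1) := by
  have h := (s_two N).mono (show 1 ≤ 2 by norm_num)
  rw [pow_mul, show (2 : ℚ) ^ 2 = 4 by norm_num]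
  have h2 : PO 2 1 ((-1 : ℚ) ^ N - 1) := by
    rcases Nat.even_or_odd N with hN | hN
    · rw [hN.neg_one_pow, sub_self]; exact PO.zero 1
    · rw [hN.neg_one_pow]
      have := PO_int 2 1 (-2) (by norm_num)
      push_cast at this
      rw [show (-1 - 1 : ℚ) = -2 by norm_num]
      exact this
  have := h.add h2
  rwa [sub_add_sub_cancel] at this

theorem s_den (N : ℕ) : (s (N + 1)).den = 2 ^ (2 * nu (N + 1)) :=
  (num_den_of _ _ (s_two' N) fun _ _ hq => s_PO hq N).1

theorem s_num (N : ℕ) : ((s (N + 1)).num : ℚ) = 4 ^ nu (N + 1) * s (N + 1) := by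
  have := (num_den_of _ _ (s_two' N) fun _ _ hq => s_PO hq N).2
  rw [this, pow_mul]; norm_num

theorem s_num_mod4 (N : ℕ) : (4 : ℤ) ∣ (s (N + 1)).num - (-1) ^ N := by
  have h := s_two N
  rw [← s_num] at h
  have h2 : PO 2 2 ((((s (N + 1)).num - (-1) ^ N : ℤ)) : ℚ) := by push_cast; exact h
  have := PO_dvd h2
  norm_num at this
  exact this

theorem s_num_mod3 (N : ℕ) : (3 : ℤ) ∣ (s (N + 1)).num - 1 := by
  have h1 : PO 3 1 ((4 : ℚ) ^ nu (N + 1) - 1 ^ nu (N + 1)) := by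
    refine PO_pow_sub ?_ PO.one ?_ _
    · exact_mod_cast PO.of_nat (p := 3) 4
    · have := PO_int 3 1 3 (by norm_num)
      push_cast at this
      rw [show (4 - 1 : ℚ) = 3 by norm_num]; exact this
  have h2 := h1.mul0' (s_PO (q := 3) (by norm_num) N)
  have h3 := h2.add (s_mod3 N)
  have e : ((4 : ℚ) ^ nu (N + 1) - 1 ^ nu (N + 1)) * s (N + 1) + (s (N + 1) - 1) =
      (((s (N + 1)).num - 1 : ℤ) : ℚ) := by
    push_cast
    rw [s_num, one_pow]; ring
  rw [e] at h3
  have := PO_dvd h3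
  simpa using this

theorem s_num_odd (N : ℕ) (h : Even N) : (12 : ℤ) ∣ (s (N + 1)).num - 1 := by
  have h1 := s_num_mod4 N
  have h2 := s_num_mod3 N
  rw [h.neg_one_pow] at h1
  omega

theorem s_num_even (N : ℕ) (h : Odd N) : (12 : ℤ) ∣ (s (N + 1)).num - 7 := by
  have h1 := s_num_mod4 N
  have h2 := s_num_mod3 N
  rw [h.neg_one_pow] at h1
  omega

end Pool.Agent.Q277.DC
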