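import Pool.Agent.Q277.DC.Sums

/-!
`s(n) ≡ 1 (mod 3)` for all `n ≥ 1`, and integrality of `s(n)` at odd primes.
-/

set_option autoImplicit false

namespace Pool.Agent.Q277.DC

open Finset Pool.Agent.H434R2

/-- `D_n(-1) = (-1)^n`. -/
theorem alt_d (n m : ℕ) (hm : n ≤ m) : ∑ i ∈ range (m + 1), (-1 : ℤ) ^ i * d n i = (-1) ^ n := by
  induction n with
  | zero =>
    rw [sum_eq_single 0]
    · simp [d_zero]
    · intro i _ hi
      rw [d_gt 0 i (by omega)]; simp
    · intro h; exact absurd (mem_range.2 (by omega)) h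
  | succ N ih =>
    have ih := ih (by omega)
    have key : ∀ k, ∑ i ∈ range (k + 1), ((-1 : ℤ) ^ i * (((N : ℤ) + 1) * d (N + 1) i + ((N : ℤ) + 1) * d N i))
        = 2 * ((-1) ^ k * (((N : ℤ) + 1 + k) * d N k)) := by
      intro k
      induction k with
      | zero => simp [d_zero]; ring
      | succ k ihk =>
        rw [sum_range_succ, ihk]
        have h := rel2 N k
        push_cast
        rw [pow_succ]
        linear_combination (-(-1) ^ k) * h
    have h := key m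
    rw [d_gt N m (by omega)] at h
    simp only [mul_add, sum_add_distrib] at h
    have h1 : ∀ (n : ℕ), ∑ i ∈ range (m + 1), (-1 : ℤ) ^ i * (((N : ℤ) + 1) * d n i) =
        ((N : ℤ) + 1) * ∑ i ∈ range (m + 1), (-1 : ℤ) ^ i * d n i := by
      intro n
      rw [mul_sum]
      refine sum_congr rfl fun i _ => ?_
      ring
    have hN : ((N : ℤ) + 1) ≠ 0 := by positivity
    apply mul_left_cancel₀ hN
    have h2 := h1 (N + 1)
    have h3 := h1 N
    rw [ih] at h3
    rw [pow_succ]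
    simp only [Nat.cast_zero, mul_zero] at h h2 h3
    linear_combination h - h2 - h3

theorem luc (n j r t : ℕ) (hr : r < 3) (ht : t < 3) :
    d (3 * n + r) (3 * j + t) ≡ d n j * d r t [MOD 3] := by
  have hf : Fact (Nat.Prime 3) := ⟨by norm_num⟩
  have h1 := Choose.choose_modEq_choose_mod_mul_choose_div_nat (p := 3) (n := 3 * n + r) (k := 3 * j + t)
  have h2 := Choose.choose_modEq_choose_mod_mul_choose_div_nat (p := 3) (n := 3 * n + r + (3 * j + t))
    (k := 3 * j + t)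
  rw [show (3 * n + r) % 3 = r by omega, show (3 * j + t) % 3 = t by omega,
    show (3 * n + r) / 3 = n by omega, show (3 * j + t) / 3 = j by omega] at h1
  rw [show (3 * j + t) % 3 = t by omega, show (3 * j + t) / 3 = j by omega] at h2
  have h3 := h1.mul h2
  unfold d at *
  by_cases h : r + t < 3
  · rw [show (3 * n + r + (3 * j + t)) % 3 = r + t by omega,
      show (3 * n + r + (3 * j + t)) / 3 = n + j by omega] at h3
    have e : r.choose t * n.choose j * ((r + t).choose t * (n + j).choose j) =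
        n.choose j * (n + j).choose j * (r.choose t * (r + t).choose t) := by ring
    rw [e] at h3
    exact h3
  · rw [show (3 * n + r + (3 * j + t)) % 3 = r + t - 3 by omega,
      show (3 * n + r + (3 * j + t)) / 3 = n + j + 1 by omega] at h3
    have e : (r + t - 3).choose t = 0 := Nat.choose_eq_zero_of_lt (by omega)
    rw [e, zero_mul, mul_zero] at h3
    refine h3.trans ?_
    have : 3 ∣ r.choose t * (r + t).choose t := by
      interval_cases r <;> interval_cases t <;> first | omega | decide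
    exact ((Nat.modEq_zero_iff_dvd).2 (Dvd.dvd.mul_left this _)).symm

theorem d_sq (n : ℕ) : ∀ j, ((d n j : ℕ) : ZMod 3) ^ 2 = (-1) ^ j * ((d n j : ℕ) : ZMod 3) := by
  induction n using Nat.strong_induction_on with
  | _ n ih =>
    intro j
    rcases Nat.eq_zero_or_pos n with h0 | hpos
    · subst h0
      rcases j with _ | j
      · simp [d_zero]
      · rw [d_gt 0 (j + 1) (by omega)]; simp
    · have h := luc (n / 3) (j / 3) (n % 3) (j % 3) (by omega) (by omega)
      rw [Nat.div_add_mod, Nat.div_add_mod] at h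
      have h' : ((d n j : ℕ) : ZMod 3) = (d (n / 3) (j / 3) : ℕ) * (d (n % 3) (j % 3) : ℕ) := by
        rw [← Nat.cast_mul]
        exact (ZMod.natCast_eq_natCast_iff _ _ _).2 h
      have ih' := ih (n / 3) (by omega) (j / 3)
      have hr : n % 3 < 3 := Nat.mod_lt _ (by norm_num)
      have ht : j % 3 < 3 := Nat.mod_lt _ (by norm_num)
      have hsign : ((-1 : ZMod 3)) ^ j = (-1) ^ (j / 3) * (-1) ^ (j % 3) := by
        conv_lhs => rw [← Nat.div_add_mod j 3]
        rw [pow_add, pow_mul]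
        norm_num
      rw [h', hsign, mul_pow, ih']
      have hd : ((d (n % 3) (j % 3) : ℕ) : ZMod 3) ^ 2 =
          (-1) ^ (j % 3) * ((d (n % 3) (j % 3) : ℕ) : ZMod 3) := by
        generalize n % 3 = r at *
        generalize j % 3 = t at *
        interval_cases r <;> interval_cases t <;> decide
      rw [hd]; ring

theorem PO_int (q k : ℕ) [Fact q.Prime] (z : ℤ) (h : (q : ℤ) ^ k ∣ z) : PO q k (z : ℚ) := by
  obtain ⟨w, rfl⟩ := h
  push_cast
  have := (PO.ppow (p := q) k).mul0' (PO.of_int w)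
  exact_mod_cast this

theorem PO_pow_sub {q k : ℕ} [Fact q.Prime] {x y : ℚ} (hx : PO q 0 x) (hy : PO q 0 y)
    (h : PO q k (x - y)) (n : ℕ) : PO q k (x ^ n - y ^ n) := by
  induction n with
  | zero => simpa using PO.zero k
  | succ n ih =>
    have : x ^ (n + 1) - y ^ (n + 1) = x * (x ^ n - y ^ n) + (x - y) * y ^ n := by ring
    rw [this]
    exact (hx.mul0 ih).add (h.mul0' (hy.pow0 n))

section
variable {q : ℕ} [hq : Fact q.Prime] (h2 : q ≠ 2)
include h2

theorem v_PO (n i : ℕ) : PO q 0 (v n i) := (PO.of_nat _).mul0 ((PO.half h2).pow0 i)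

theorem wa_PO (n i : ℕ) : PO q 0 (wa n i) := by
  unfold wa
  split_ifs
  · exact PO.zero 0
  · exact (PO.of_nat _).mul0 ((PO.half h2).pow0 i)

theorem wb_PO (n i : ℕ) : PO q 0 (wb n i) := by
  unfold wb
  split_ifs
  · exact PO.zero 0
  · exact (PO.of_nat _).mul0 ((PO.half h2).pow0 i)

theorem Yp_PO (N : ℕ) : PO q 0 (Yp N) := by
  unfold Yp
  refine PO.sum _ _ fun i _ => PO.sum _ _ fun j _ => ?_
  refine PO.mul0 ((PO.of_nat _).sub (PO.of_nat _)) ?_
  exact ((wa_PO h2 _ _).mul0 (v_PO h2 _ _)).sub ((v_PO h2 _ _).mul0 (wb_PO h2 _ _))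

theorem Kp_PO (N : ℕ) : PO q 0 (Kp N) := by
  unfold Kp
  refine PO.sum _ _ fun i _ => PO.sum _ _ fun j _ => ?_
  refine PO.mul0 ((PO.of_int _).sub (PO.of_int _)) ?_
  exact (v_PO h2 _ _).mul0 (v_PO h2 _ _)

theorem s_PO (N : ℕ) : PO q 0 (s (N + 1)) := by
  rw [s_form]
  have hs : ∀ k : ℕ, PO q 0 ((-1 : ℚ) ^ k) := fun k => (PO.one.neg).pow0 k
  refine PO.mul0 (hs _) (PO.sum _ _ fun i _ => PO.sum _ _ fun j _ => ?_)
  refine PO.mul0 (PO.of_int _) (PO.mul0 ((hs _).mul0 (hs _)) ?_)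
  exact ((wa_PO h2 _ _).mul0 (v_PO h2 _ _)).sub ((v_PO h2 _ _).mul0 (wb_PO h2 _ _))

end

instance : Fact (Nat.Prime 3) := ⟨by norm_num⟩

theorem half3 : PO 3 1 ((1 / 2 : ℚ) - (-1)) := by
  have h := (PO_int 3 1 3 (by norm_num)).mul0' (PO.half (p := 3) (by norm_num))
  have : (1 / 2 : ℚ) - (-1) = ((3 : ℤ) : ℚ) * (1 / 2) := by norm_num
  rw [this]; exact h

theorem half3_pow (i : ℕ) : PO 3 1 ((1 / 2 : ℚ) ^ i - (-1) ^ i) :=
  PO_pow_sub (PO.half (by norm_num)) PO.one.neg half3 i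

theorem sum_v_mod (n m : ℕ) (hm : n ≤ m) : PO 3 1 (∑ i ∈ range (m + 1), v n i - (-1) ^ n) := by
  have h := congrArg (Int.cast : ℤ → ℚ) (alt_d n m hm)
  push_cast at h
  rw [← h]
  apply PO.sum_sub
  intro i _
  have : v n i - (-1) ^ i * (d n i : ℚ) = (d n i : ℚ) * ((1 / 2) ^ i - (-1) ^ i) := by
    unfold v; ring
  rw [this]
  exact (PO.of_nat _).mul0 (half3_pow i)

theorem sum_v_sq_mod (n m : ℕ) (hm : n ≤ m) : PO 3 1 (∑ i ∈ range (m + 1), v n i ^ 2 - (-1) ^ n) := by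
  have h := congrArg (Int.cast : ℤ → ℚ) (alt_d n m hm)
  push_cast at h
  rw [← h]
  apply PO.sum_sub
  intro i _
  have hd : (3 : ℤ) ^ 1 ∣ (d n i : ℤ) ^ 2 - (-1) ^ i * d n i := by
    have := d_sq n i
    rw [pow_one]
    apply (ZMod.intCast_zmod_eq_zero_iff_dvd _ 3).1
    push_cast
    rw [this]; ring
  have h1 := PO_int 3 1 _ hd
  have h2 : PO 3 1 ((1 / 4 : ℚ) ^ i - 1 ^ i) := by
    refine PO_pow_sub ?_ PO.one ?_ i
    · have := (PO.half (p := 3) (by norm_num)).mul0 (PO.half (p := 3) (by norm_num))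
      norm_num at this ⊢
      exact this
    · have h := (PO_int 3 1 (-3) (by norm_num)).mul0'
        ((PO.half (p := 3) (by norm_num)).mul0 (PO.half (p := 3) (by norm_num)))
      have : (1 / 4 : ℚ) - 1 = ((-3 : ℤ) : ℚ) * (1 / 2 * (1 / 2)) := by norm_num
      rw [this]; exact h
  have : v n i ^ 2 - (-1) ^ i * (d n i : ℚ) = (d n i : ℚ) ^ 2 * ((1 / 4) ^ i - 1 ^ i) +
      (((d n i : ℤ) ^ 2 - (-1) ^ i * d n i : ℤ) : ℚ) := by
    unfold v
    push_cast
    rw [mul_pow, ← pow_mul, mul_comm i 2, pow_mul]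
    norm_num
    ring
  rw [this]
  exact (((PO.of_nat _).pow0 2).mul0 h2).add h1

/-- `s(n) ≡ 1 (mod 3)`. -/
theorem s_mod3 (N : ℕ) : PO 3 1 (s (N + 1) - 1) := by
  have h := main_id N
  have a1 := sum_v_mod (N + 1) (N + 1) le_rfl
  have a2 := sum_v_mod N (N + 1) (by omega)
  have b1 := sum_v_sq_mod (N + 1) (N + 1) le_rfl
  have b2 := sum_v_sq_mod N (N + 1) (by omega)
  have hK := Kp_PO (q := 3) (by norm_num) N
  have hY := Yp_PO (q := 3) (by norm_num) N
  set x := ∑ i ∈ range (N + 2), v (N + 1) i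
  set y := ∑ i ∈ range (N + 2), v N i
  set x2 := ∑ i ∈ range (N + 2), v (N + 1) i ^ 2
  set y2 := ∑ i ∈ range (N + 2), v N i ^ 2
  have hs : ∀ k : ℕ, PO 3 0 ((-1 : ℚ) ^ k) := fun k => (PO.one.neg).pow0 k
  have hx : PO 3 0 x := by
    have := (a1.mono (Nat.zero_le _)).add (hs (N + 1))
    rwa [sub_add_cancel] at this
  have hy : PO 3 0 y := by
    have := (a2.mono (Nat.zero_le _)).add (hs N)
    rwa [sub_add_cancel] at this
  have e1 : ((-1 : ℚ) ^ N) * (-1) ^ N = 1 := by rw [← mul_pow]; norm_num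
  have h3 : ∀ {z : ℚ}, PO 3 0 z → PO 3 1 (((3 : ℤ) : ℚ) * z) := fun hz =>
    (PO_int 3 1 3 (by norm_num)).mul0' hz
  have t1 := h3 ((PO.of_int (p := 3) 2).mul0 hK)
  have t2 := h3 ((PO.of_int (p := 3) 6).mul0 hY)
  have t3 := a1.mul0' (hx.add (hs (N + 1)))
  have t4 := a2.mul0' (hy.add (hs N))
  have t5 := b1.sub b2
  have t6 := h3 ((hs N).mul0 (s_PO (q := 3) (by norm_num) N))
  have t7 := h3 (hs (N))
  have tot := ((((t1.sub t2).sub t3).add t4).add t5)
  have tot2 := (hs N).mul0 ((tot.sub t6).sub t7)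
  have e : s (N + 1) - 1 = (-1) ^ N * (((3 : ℤ) : ℚ) * (((2 : ℤ) : ℚ) * Kp N) -
      ((3 : ℤ) : ℚ) * (((6 : ℤ) : ℚ) * Yp N) - (x - (-1) ^ (N + 1)) * (x + (-1) ^ (N + 1)) +
      (y - (-1) ^ N) * (y + (-1) ^ N) + (x2 - (-1) ^ (N + 1) - (y2 - (-1) ^ N))
      - ((3 : ℤ) : ℚ) * ((-1) ^ N * s (N + 1)) - ((3 : ℤ) : ℚ) * ((-1) ^ N)) := by
    push_cast
    rw [pow_succ] at *
    linear_combination (-1) ^ N * h - (s (N + 1) - 1) * e1
  rw [e]
  exact tot2

end Pool.Agent.Q277.DC
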