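import Pool.Agent.Q277.DC.PA

/-!
The congruences for `n = 3^a`.
-/

set_option autoImplicit false

namespace Pool.Agent.Q277.DC

open Finset Pool.Agent.H434R2

theorem pow3 {x y : ℚ} {k : ℕ} (hy : PO 3 0 y) (hx : PO 3 0 x) (h : PO 3 k (x - y)) (hk : 1 ≤ k) :
    PO 3 (k + 1) (x ^ 3 - y ^ 3) := by
  have h3 : PO 3 1 (((3 : ℤ) : ℚ) * (x * y)) := (PO_int 3 1 3 (by norm_num)).mul0' (hx.mul0 hy)
  have h1 : PO 3 1 ((x - y) ^ 2) := by
    have := (h.mono hk).mul (h.mono hk)
    rw [pow_two]; exact this.mono (by norm_num)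
  have := h.mul (h1.add h3)
  have e : x ^ 3 - y ^ 3 = (x - y) * ((x - y) ^ 2 + ((3 : ℤ) : ℚ) * (x * y)) := by push_cast; ring
  rw [e]; exact this

theorem pow3v {x y : ℚ} (hy : PO 3 0 y) (hx : PO 3 0 x) (h : PO 3 1 (x - y)) (v : ℕ) :
    PO 3 (v + 1) (x ^ 3 ^ v - y ^ 3 ^ v) := by
  induction v with
  | zero => simpa using h
  | succ v ih =>
    rw [pow_succ, pow_mul, pow_mul]
    exact pow3 (hy.pow0 _) (hx.pow0 _) ih (by omega)

theorem pow3i {x y : ℚ} (hy : PO 3 0 y) (hx : PO 3 0 x) (h : PO 3 1 (x - y)) (v i : ℕ) :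
    PO 3 (v + 1) (x ^ (3 ^ v * i) - y ^ (3 ^ v * i)) := by
  rw [pow_mul, pow_mul]
  exact PO_pow_sub (hx.pow0 _) (hy.pow0 _) (pow3v hy hx h v) i

/-- `(1/a) d_m(i) (z^i - (-1)^i) ∈ 3^{a+1}` for `n = 3^a`. -/
theorem term3 {z : ℚ} (hz : PO 3 0 z) (hz1 : PO 3 1 (z - (-1))) (a i D : ℕ) (hi0 : i ≠ 0)
    (hi : i ≤ 3 ^ a) (hD : 3 ^ a ∣ i * D) : PO 3 (a + 1) ((D : ℚ) * (z ^ i - (-1) ^ i)) := by
  obtain ⟨v, i', hi', rfl⟩ := Nat.exists_eq_pow_mul_and_not_dvd hi0 3 (by norm_num)
  have hva : v ≤ a := by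
    have h1 : 3 ^ v ≤ 3 ^ v * i' := Nat.le_mul_of_pos_right _ (Nat.pos_of_ne_zero (by
      rintro rfl; simp at hi'))
    exact (Nat.pow_le_pow_iff_right (by norm_num)).1 (h1.trans hi)
  obtain ⟨c, rfl⟩ := Nat.exists_eq_add_of_le hva
  have h1 : 3 ^ c ∣ D := by
    rw [pow_add, mul_assoc] at hD
    have h2 := Nat.dvd_of_mul_dvd_mul_left (by positivity) hD
    exact (Nat.Coprime.dvd_of_dvd_mul_left (Nat.Coprime.pow_left c
      ((Nat.Prime.coprime_iff_not_dvd Nat.prime_three).2 hi')) h2)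
  have h3 : PO 3 c (D : ℚ) := by
    have := PO_int 3 c (D : ℤ) (by exact_mod_cast h1)
    exact_mod_cast this
  have h4 := h3.mul (pow3i (PO.one.neg) hz hz1 v i')
  exact h4.mono (by omega)

section
variable {a N : ℕ} (ha : a ≠ 0) (hN : N + 1 = 3 ^ a)

include hN in
theorem dvd_n (i : ℕ) (hi : i ≠ 0) : 3 ^ a ∣ i * d (N + 1) i := by
  obtain ⟨k, rfl⟩ := Nat.exists_eq_succ_of_ne_zero hi
  rw [← hN]
  exact ⟨_, e1 N k⟩

include hN in
theorem dvd_N (i : ℕ) (hi : i ≠ 0) : 3 ^ a ∣ i * d N i := by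
  obtain ⟨k, rfl⟩ := Nat.exists_eq_succ_of_ne_zero hi
  rw [← hN]
  exact ⟨_, e2 N k⟩

theorem key3 {z : ℚ} (hz : PO 3 0 z) (hz1 : PO 3 1 (z - (-1))) (m M : ℕ) (hm : m ≤ M) (hM : M ≤ 3 ^ a)
    (h : ∀ i, i ≠ 0 → 3 ^ a ∣ i * d m i) :
    PO 3 (a + 1) (∑ i ∈ range (M + 1), (d m i : ℚ) * z ^ i - (-1) ^ m) := by
  have h1 := congrArg (Int.cast : ℤ → ℚ) (alt_d m M hm)
  push_cast at h1
  rw [← h1]
  apply PO.sum_sub
  intro i hi
  have e : (d m i : ℚ) * z ^ i - (-1) ^ i * (d m i : ℚ) = (d m i : ℚ) * (z ^ i - (-1) ^ i) := by ring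
  rw [e]
  rcases Nat.eq_zero_or_pos i with rfl | hi0
  · simp; exact PO.zero _
  · exact term3 hz hz1 a i _ (by omega) (by have := mem_range.1 hi; omega) (h i (by omega))

include hN in
theorem P_n3 : PO 3 (a + 1) (P (N + 1) + 1) ∧ PO 3 (a + 1) (P N - 1) := by
  have hodd : Odd (N + 1) := by
    rw [hN]; exact (by decide : Odd 3).pow
  have heven : Even N := by
    rcases Nat.even_or_odd N with h | h
    · exact h
    · exact absurd hodd (by rw [Nat.not_odd_iff_even]; exact h.add_one)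
  have hz : PO 3 0 (-1 / 4 : ℚ) := by
    have := ((PO.half (p := 3) (by norm_num)).mul0 (PO.half (p := 3) (by norm_num))).neg
    norm_num at this ⊢
    exact this
  have hz1 : PO 3 1 ((-1 / 4 : ℚ) - (-1)) := by
    have := (PO_int 3 1 (-3) (by norm_num)).mul0' hz
    have e : (-1 / 4 : ℚ) - (-1) = ((-3 : ℤ) : ℚ) * (-1 / 4) := by norm_num
    rw [e]; exact this
  have h1 := key3 hz hz1 (N + 1) (N + 1) le_rfl hN.le (dvd_n hN)
  have h2 := key3 hz hz1 N (N + 1) (by omega) hN.le (dvd_N hN)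
  rw [← P_eq (N + 1) (N + 1 + 1) le_rfl, hodd.neg_one_pow] at h1
  rw [← P_eq N (N + 1 + 1) (by omega), heven.neg_one_pow] at h2
  exact ⟨by rwa [sub_neg_eq_add] at h1, h2⟩

theorem P_small : P 2 = -1 / 8 ∧ P 3 = -7 / 16 ∧ P 4 = -37 / 128 ∧ P 5 = 23 / 256 ∧ P 6 = 331 / 1024 ∧
    P 7 = 457 / 2048 ∧ P 8 = -2413 / 32768 ∧ P 9 = -17557 / 65536 := by
  have r0 := P_rec 0
  have r1 := P_rec 1
  have r2 := P_rec 2
  have r3 := P_rec 3
  have r4 := P_rec 4
  have r5 := P_rec 5
  have r6 := P_rec 6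
  have r7 := P_rec 7
  have h0 := P_zero
  have h1 := P_one
  norm_num at r0 r1 r2 r3 r4 r5 r6 r7
  rw [h0, h1] at r0
  have h2 : P 2 = -1 / 8 := by linarith
  rw [h1, h2] at r1
  have h3 : P 3 = -7 / 16 := by linarith
  rw [h2, h3] at r2
  have h4 : P 4 = -37 / 128 := by linarith
  rw [h3, h4] at r3
  have h5 : P 5 = 23 / 256 := by linarith
  rw [h4, h5] at r4
  have h6 : P 6 = 331 / 1024 := by linarith
  rw [h5, h6] at r5
  have h7 : P 7 = 457 / 2048 := by linarith
  rw [h6, h7] at r6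
  have h8 : P 8 = -2413 / 32768 := by linarith
  rw [h7, h8] at r7
  have h9 : P 9 = -17557 / 65536 := by linarith
  exact ⟨h2, h3, h4, h5, h6, h7, h8, h9⟩

include ha hN in
theorem t_3a : PO 3 5 (t (N + 1) + 8) := by
  have hodd : Odd (N + 1) := by
    rw [hN]; exact (by decide : Odd 3).pow
  obtain ⟨p2, p3, p4, p5, p6, p7, p8, p9⟩ := P_small
  have hinv : PO 3 0 ((2 : ℚ)⁻¹) := by
    have := PO.half (p := 3) (by norm_num)
    rwa [one_div] at this
  rw [t_eq, hodd.neg_one_pow]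
  rcases (by omega : a = 1 ∨ a = 2 ∨ 3 ≤ a) with rfl | rfl | h3
  · obtain rfl : N = 2 := by norm_num at hN; omega
    rw [show 2 + 1 = 3 by rfl, p2, p3]
    have h1 := (PO_int 3 5 4131 (by norm_num)).mul0' (hinv.pow0 9)
    convert h1 using 1
    norm_num
  · obtain rfl : N = 8 := by norm_num at hN; omega
    rw [show 8 + 1 = 9 by rfl, p8, p9]
    have h1 := (PO_int 3 5 282014326047627 (by norm_num)).mul0' (hinv.pow0 45)
    convert h1 using 1
    norm_num
  · obtain ⟨hx, hy⟩ := P_n3 hN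
    have hx4 := hx.mono (show 4 ≤ a + 1 by omega)
    have hy4 := hy.mono (show 4 ≤ a + 1 by omega)
    have g1 := (PO_int 3 1 12 (by norm_num)).mul (hx4.sub hy4)
    have g2 := ((hx4.mul hx4).add (hy4.mul hy4)).sub ((PO.of_int (p := 3) 4).mul0 (hx4.mul hy4))
    have g3 := (PO.of_int (p := 3) (-4)).mul0 g2
    have g4 := (PO.of_int (p := 3) (-4)).mul0 ((hx4.mul hy4).mul0' ((hx4.sub hy4).mono (Nat.zero_le _)))
    have tot := (g1.add (g3.mono (show 5 ≤ 4 + 4 by norm_num))).add (g4.mono (show 5 ≤ 4 + 4 by norm_num))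
    convert tot using 1
    push_cast
    ring

include ha hN in
theorem s_3a : PO 3 2 (s (N + 1) - 4) := by
  have hodd : Odd (N + 1) := by
    rw [hN]; exact (by decide : Odd 3).pow
  have heven : Even N := by
    rcases Nat.even_or_odd N with h | h
    · exact h
    · exact absurd hodd (by rw [Nat.not_odd_iff_even]; exact h.add_one)
  have hid := main_id N
  rw [hodd.neg_one_pow] at hid
  -- Kp
  have h32 : (3 : ℕ) ≠ 2 := by norm_num
  have hK : PO 3 1 (Kp N + 1) := by
    have h1 : PO 3 1 (Kp N - ∑ i ∈ range (N + 2), ∑ j ∈ range (N + 2),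
        ((cw2 (N + 1) (i + (N + 1 - j)) : ℚ) - (cw2 (N + 1) (j + (N + 1 - i)) : ℚ)) *
        (((if i = 0 then 1 else 0) + (if i = N + 1 then 1 else 0)) * (if j = 0 then 1 else 0))) := by
      unfold Kp
      apply PO.sum_sub
      intro i _
      apply PO.sum_sub
      intro j _
      have a1 := (v_PO h32 (N + 1) i).mul0 (vN hN h32 j)
      have a2 := (vn hN h32 i).mul0' (show PO 3 0 (if j = 0 then (1 : ℚ) else 0) by
        split_ifs
        · exact PO.one
        · exact PO.zero 0)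
      have a3 := ((PO.of_int (p := 3) (cw2 (N + 1) (i + (N + 1 - j)))).sub
        (PO.of_int (p := 3) (cw2 (N + 1) (j + (N + 1 - i))))).mul0 (a1.add a2)
      convert a3 using 1
      ring
    have h2 : ∑ i ∈ range (N + 2), ∑ j ∈ range (N + 2),
        ((cw2 (N + 1) (i + (N + 1 - j)) : ℚ) - (cw2 (N + 1) (j + (N + 1 - i)) : ℚ)) *
        (((if i = 0 then 1 else 0) + (if i = N + 1 then 1 else 0)) * (if j = 0 then 1 else 0)) =
        (cw2 (N + 1) (N + 1 + (N + 1)) : ℚ) - cw2 (N + 1) 0 := by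
      have t1 : ∀ i ∈ range (N + 2), ∑ j ∈ range (N + 2),
        ((cw2 (N + 1) (i + (N + 1 - j)) : ℚ) - (cw2 (N + 1) (j + (N + 1 - i)) : ℚ)) *
        (((if i = 0 then 1 else 0) + (if i = N + 1 then 1 else 0)) * (if j = 0 then 1 else 0)) =
        if i = N + 1 then (cw2 (N + 1) (N + 1 + (N + 1)) : ℚ) - cw2 (N + 1) 0 else 0 := by
        intro i _
        rw [sum_eq_single 0]
        · rcases Nat.eq_zero_or_pos i with rfl | hi0
          · simp
          · by_cases hiN : i = N + 1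
            · subst hiN
              simp
            · rw [if_neg (by omega), if_neg hiN, if_neg hiN]; simp
        · intro j _ hj
          rw [if_neg hj]; simp
        · intro h; exact absurd (mem_range.2 (by omega)) h
      rw [sum_congr rfl t1, sum_ite_eq', if_pos (mem_range.2 (by omega))]
    obtain ⟨m, hm⟩ := heven
    have h3 : cw2 (N + 1) (N + 1 + (N + 1)) - cw2 (N + 1) 0 = 2 * (N + 1) - 1 := by
      unfold cw2
      subst hm
      rw [show (m + m + 1 + (m + m + 1) + 2 - (m + m + 1) - 1) / 2 = m + 1 by omega,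
        show (m + m + 1 + (m + m + 1) + 1 - (m + m + 1) - 1) / 2 = m by omega,
        show (m + m + 1 + (m + m + 1) - (m + m + 1) - 1) / 2 = m by omega,
        show (0 + 2 - (m + m + 1) - 1) / 2 = 0 by omega,
        show (0 + 1 - (m + m + 1) - 1) / 2 = 0 by omega,
        show (0 - (m + m + 1) - 1) / 2 = 0 by omega]
      push_cast; ring
    have h4 := congrArg (Int.cast : ℤ → ℚ) h3
    push_cast at h4
    rw [h2, h4] at h1
    have h5 : PO 3 1 (((2 * (N + 1) : ℤ)) : ℚ) := by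
      apply PO_int
      have : (3 : ℤ) ^ 1 ∣ ((N + 1 : ℕ) : ℤ) := by
        rw [hN]; push_cast
        exact pow_dvd_pow (3 : ℤ) (show 1 ≤ a by omega)
      push_cast at this
      exact Dvd.dvd.mul_left this 2
    have h6 := h1.add h5
    convert h6 using 1
    push_cast
    ring
  -- sums of v
  have hz : PO 3 0 (1 / 2 : ℚ) := PO.half h32
  have hz1 : PO 3 1 ((1 / 2 : ℚ) - (-1)) := half3
  have hX := key3 hz hz1 (N + 1) (N + 1) le_rfl hN.le (dvd_n hN)
  have hY := key3 hz hz1 N (N + 1) (by omega) hN.le (dvd_N hN)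
  rw [hodd.neg_one_pow] at hX
  rw [heven.neg_one_pow] at hY
  have hX' : PO 3 2 (∑ i ∈ range (N + 2), v (N + 1) i - (-1)) := hX.mono (by omega)
  have hY' : PO 3 2 (∑ i ∈ range (N + 2), v N i - 1) := hY.mono (by omega)
  -- sums of squares
  have hY2 : PO 3 2 (∑ i ∈ range (N + 2), v N i ^ 2 - 1) := by
    rw [sum_range_succ']
    have : v N 0 ^ 2 = 1 := by rw [v_zero]; norm_num
    rw [this, add_sub_cancel_right]
    apply PO.sum
    intro j _
    have h := vN hN h32 (j + 1)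
    rw [if_neg (by omega), sub_zero] at h
    have := h.mul h
    rw [pow_two]; exact this
  have hX2 : PO 3 2 (∑ i ∈ range (N + 2), v (N + 1) i ^ 2 - 5) := by
    rw [sum_range_succ', sum_range_succ]
    have e0 : v (N + 1) 0 ^ 2 = 1 := by rw [v_zero]; norm_num
    have h1 : PO 3 2 (∑ k ∈ range N, v (N + 1) (k + 1) ^ 2) := by
      apply PO.sum
      intro k hk
      have := mem_range.1 hk
      have h := vn hN h32 (k + 1)
      rw [if_neg (by omega), if_neg (by omega), sub_zero, sub_zero] at h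
      have := h.mul h
      rw [pow_two]; exact this
    have h2 : PO 3 2 (v (N + 1) (N + 1) ^ 2 - 4) := by
      have hc : PO 3 2 (((N + 1 + (N + 1)).choose (N + 1) : ℕ) - (2 : ℚ)) := by
        have := Nat.sum_range_choose_sq (N + 1)
        rw [two_mul] at this
        rw [← this, Nat.cast_sum, sum_range_succ', sum_range_succ]
        have h3 : PO 3 2 (∑ k ∈ range N, (((N + 1).choose (k + 1) ^ 2 : ℕ) : ℚ)) := by
          apply PO.sum
          intro k hk
          have hk' := mem_range.1 hk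
          have h := PO_nat_dvd (ch0 hN (k + 1) (by omega) (by omega))
          have := h.mul h
          rw [pow_two]; push_cast; exact this
        simp only [Nat.choose_self, Nat.choose_zero_right, one_pow, Nat.cast_one]
        convert h3 using 1
        ring
      have h4 : PO 3 2 ((1 / 4 : ℚ) ^ (N + 1) - 1 ^ (N + 1)) := by
        have hq : PO 3 0 (1 / 4 : ℚ) := by
          have := hz.mul0 hz
          norm_num at this ⊢
          exact this
        have hq1 : PO 3 1 ((1 / 4 : ℚ) - 1) := by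
          have := (PO_int 3 1 (-3) (by norm_num)).mul0' hq
          convert this using 1
          norm_num
        have := pow3v PO.one hq hq1 a
        rw [hN]
        exact this.mono (by omega)
      rw [one_pow] at h4
      have hC0 : PO 3 0 (((N + 1 + (N + 1)).choose (N + 1) : ℕ) : ℚ) := PO.of_nat _
      have g1 := (h4.mul0' (hC0.pow0 2))
      have g2 := hc.mul0' (hC0.add (PO.of_nat 2))
      have := g1.add g2
      convert this using 1
      unfold v d
      rw [Nat.choose_self, one_mul, mul_pow, ← pow_mul, mul_comm (N + 1) 2, pow_mul]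
      push_cast
      norm_num
      ring
    have := h1.add h2
    convert this using 1
    rw [e0]; ring
  set x := ∑ i ∈ range (N + 2), v (N + 1) i
  set y := ∑ i ∈ range (N + 2), v N i
  set x2 := ∑ i ∈ range (N + 2), v (N + 1) i ^ 2
  set y2 := ∑ i ∈ range (N + 2), v N i ^ 2
  have hx0 : PO 3 0 x := by
    have := (hX'.mono (Nat.zero_le _)).add (PO.one (p := 3)).neg
    simpa using this
  have hy0 : PO 3 0 y := by
    have := (hY'.mono (Nat.zero_le _)).add (PO.one (p := 3))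
    rwa [sub_add_cancel] at this
  have g1 := (PO_int 3 1 6 (by norm_num)).mul hK
  have g2 := (PO_int 3 2 18 (by norm_num)).mul0' (Yp_PO h32 N)
  have g3 := hX'.mul0' (hx0.sub PO.one)
  have g4 := hY'.mul0' (hy0.add PO.one)
  have g5 := hX2.sub hY2
  have tot := ((((g1.sub g2).sub g3).add g4).add g5)
  have g6 := (PO_int 3 2 (-18) (by norm_num))
  have tot2 := tot.add g6
  have tot3 := tot2.mul0' (hz.mul0 hz)
  convert tot3 using 1
  push_cast
  linear_combination (1 / 4) * hid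

end

end Pool.Agent.Q277.DC
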