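import Pool.Agent.Q277.DC.TT

/-!
The congruences modulo `p` for `n = p^a`.
-/

set_option autoImplicit false

namespace Pool.Agent.Q277.DC

open Finset Pool.Agent.H434R2

section
variable {p : ℕ} [hp : Fact p.Prime] {a N : ℕ} (hN : N + 1 = p ^ a)

theorem PO_zmod {z : ℤ} (h : ((z : ℤ) : ZMod p) = 0) : PO p 1 (z : ℚ) := by
  apply PO_int
  rw [pow_one]
  exact (ZMod.intCast_zmod_eq_zero_iff_dvd _ p).1 h

include hN in
theorem ch0 (i : ℕ) (h0 : i ≠ 0) (hi : i < N + 1) : p ∣ (N + 1).choose i := by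
  rw [hN]
  exact Nat.Prime.dvd_choose_pow hp.out h0 (by omega)

include hN in
theorem ch1 (i : ℕ) (hi : i < N + 1) : (((N + 1 + i).choose i : ℕ) : ZMod p) = 1 := by
  rw [Nat.add_choose_eq, Nat.cast_sum, Finset.sum_eq_single (0, i)]
  · simp
  · rintro ⟨x, y⟩ hxy hne
    rw [HasAntidiagonal.mem_antidiagonal] at hxy
    have hx : x ≠ 0 := by
      rintro rfl
      apply hne
      simp at hxy
      rw [hxy]
    have := ch0 hN x hx (by simp at hxy; omega)
    rw [Nat.cast_mul, (ZMod.natCast_eq_zero_iff _ p).2 this, zero_mul]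
  · intro h
    exact absurd (HasAntidiagonal.mem_antidiagonal.2 (by simp)) h

include hN in
theorem ch2 : (((N + 1 + (N + 1)).choose (N + 1) : ℕ) : ZMod p) = 2 := by
  have hn0 : N + 1 ≠ 0 := by omega
  rw [Nat.add_choose_eq, Nat.cast_sum]
  rw [Finset.sum_eq_add (0, N + 1) (N + 1, 0)]
  · simp; norm_num
  · intro h; simp at h
  · rintro ⟨x, y⟩ hxy ⟨hne1, hne2⟩
    rw [HasAntidiagonal.mem_antidiagonal] at hxy
    simp only at hxy
    have hx : x ≠ 0 := by
      rintro rfl
      apply hne1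
      rw [show y = N + 1 by omega]
    have hx2 : x ≠ N + 1 := by
      rintro rfl
      apply hne2
      rw [show y = 0 by omega]
    have := ch0 hN x hx (by omega)
    rw [Nat.cast_mul, (ZMod.natCast_eq_zero_iff _ p).2 this, zero_mul]
  · intro h
    exact absurd (HasAntidiagonal.mem_antidiagonal.2 (by simp)) h
  · intro h
    exact absurd (HasAntidiagonal.mem_antidiagonal.2 (by simp)) h

include hN in
theorem ch3 (i : ℕ) (hi : i ≤ N) : ((N.choose i : ℕ) : ZMod p) = (-1) ^ i := by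
  induction i with
  | zero => simp
  | succ i ih =>
    have ih := ih (by omega)
    have h := Nat.choose_succ_succ' N i
    have h0 := (ZMod.natCast_eq_zero_iff _ p).2 (ch0 hN (i + 1) (by omega) (by omega))
    rw [h, Nat.cast_add, ih] at h0
    rw [pow_succ]
    linear_combination h0

include hN in
theorem ch4 (j : ℕ) (hj : j < N) : p ∣ (N + (j + 1)).choose (j + 1) := by
  have h := Nat.choose_succ_succ' (N + 1 + j) j
  have h1 := ch1 hN j (by omega)
  have h2 := ch1 hN (j + 1) (by omega)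
  rw [show N + 1 + (j + 1) = N + 1 + j + 1 by ring, h, Nat.cast_add, h1] at h2
  rw [← ZMod.natCast_eq_zero_iff, show N + (j + 1) = N + 1 + j by ring]
  linear_combination h2

theorem PO_nat_dvd {m : ℕ} (h : p ∣ m) : PO p 1 (m : ℚ) := by
  have := PO_int p 1 (m : ℤ) (by rw [pow_one]; exact_mod_cast h)
  exact_mod_cast this

include hN in
theorem vN (h2 : p ≠ 2) (j : ℕ) : PO p 1 (v N j - if j = 0 then 1 else 0) := by
  rcases j with _ | j
  · simp [v_zero]; exact PO.zero 1
  · rw [if_neg (by omega), sub_zero]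
    unfold v
    rcases lt_or_ge N (j + 1) with h | h
    · rw [d_gt N (j + 1) h]; simp; exact PO.zero 1
    · refine (PO_nat_dvd ?_).mul0' ((PO.half h2).pow0 _)
      exact Dvd.dvd.mul_left (ch4 hN j (by omega)) _

include hN in
theorem half_pow (h2 : p ≠ 2) : PO p 1 ((1 / 2 : ℚ) ^ N - 1) := by
  have h : ((2 - 2 ^ (N + 1) : ℤ) : ZMod p) = 0 := by
    push_cast
    rw [hN, ZMod.pow_card_pow]
    ring
  have h1 := ((PO.half h2).pow0 (N + 1)).mul0 (PO_zmod h)
  have e : (1 / 2 : ℚ) ^ (N + 1) * ((2 - 2 ^ (N + 1) : ℤ) : ℚ) = (1 / 2 : ℚ) ^ N - 1 := by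
    push_cast
    have : (1 / 2 : ℚ) ^ (N + 1) * 2 ^ (N + 1) = 1 := by rw [← mul_pow]; norm_num
    rw [mul_sub, this, pow_succ]; ring
  rw [← e]; exact h1

include hN in
theorem vn (h2 : p ≠ 2) (i : ℕ) : PO p 1 (v (N + 1) i - (if i = 0 then 1 else 0) -
    (if i = N + 1 then 1 else 0)) := by
  rcases i with _ | i
  · rw [if_pos rfl, if_neg (by omega), v_zero]; simp; exact PO.zero 1
  · rw [if_neg (by omega : ¬ i + 1 = 0), sub_zero]
    rcases lt_trichotomy (i + 1) (N + 1) with h | h | h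
    · rw [if_neg (by omega), sub_zero]
      unfold v
      refine (PO_nat_dvd ?_).mul0' ((PO.half h2).pow0 _)
      exact Dvd.dvd.mul_right (ch0 hN (i + 1) (by omega) (by omega)) _
    · have : i = N := by omega
      subst this
      rw [if_pos rfl]
      have hc := ch2 hN
      have h3 : PO p 1 ((((i + 1 + (i + 1)).choose (i + 1) : ℤ) - 2 : ℤ) : ℚ) := by
        apply PO_zmod
        push_cast
        rw [hc]; ring
      have h4 := half_pow hN h2
      have h5 := h3.mul0' ((PO.half h2).pow0 (i + 1))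
      have h6 := h5.add h4
      have e : ((((i + 1 + (i + 1)).choose (i + 1) : ℤ) - 2 : ℤ) : ℚ) * (1 / 2) ^ (i + 1) +
          ((1 / 2 : ℚ) ^ i - 1) = v (i + 1) (i + 1) - 1 := by
        unfold v d
        rw [Nat.choose_self, one_mul, pow_succ]
        push_cast
        ring
      rw [← e]; exact h6
    · rw [if_neg (by omega), v_gt _ _ h]; simp; exact PO.zero 1

theorem geo (N : ℕ) : ∑ k ∈ range N, (1 / 2 : ℚ) ^ (k + 1) = 1 - (1 / 2) ^ N := by
  induction N with
  | zero => simp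
  | succ N ih => rw [sum_range_succ, ih, pow_succ]; ring

include hN in
theorem S1 (h2 : p ≠ 2) : PO p 1 (∑ i ∈ range (N + 2), (-1) ^ i * wa N i + 1) := by
  have hodd : Odd (N + 1) := by
    rw [hN]; exact (hp.out.odd_of_ne_two h2).pow
  rw [sum_range_succ', sum_range_succ]
  have e0 : (-1 : ℚ) ^ 0 * wa N 0 = 0 := by simp [wa]
  rw [e0, add_zero]
  have h1 : PO p 1 (∑ k ∈ range N, (-1 : ℚ) ^ (k + 1) * wa N (k + 1) -
      ∑ k ∈ range N, (-(1 / 2 : ℚ) ^ (k + 1))) := by
    apply PO.sum_sub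
    intro k hk
    have hk := mem_range.1 hk
    have hz : ((((-1) ^ (k + 1) * ((N.choose k * (N + 1 + (k + 1)).choose (k + 1) : ℕ) : ℤ) + 1 : ℤ)) : ZMod p) = 0 := by
      push_cast
      rw [ch1 hN (k + 1) (by omega), ch3 hN k (by omega), pow_succ]
      have : ((-1 : ZMod p) ^ k) * (-1) ^ k = 1 := by rw [← mul_pow]; norm_num
      linear_combination (-1 : ZMod p) * this
    have := (PO_zmod hz).mul0' ((PO.half h2).pow0 (k + 1))
    have e : (-1 : ℚ) ^ (k + 1) * wa N (k + 1) - (-(1 / 2 : ℚ) ^ (k + 1)) =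
      ((((-1) ^ (k + 1) * ((N.choose k * (N + 1 + (k + 1)).choose (k + 1) : ℕ) : ℤ) + 1 : ℤ)) : ℚ) *
        (1 / 2) ^ (k + 1) := by
      unfold wa
      rw [if_neg (by omega), Nat.add_sub_cancel]
      push_cast
      ring
    rw [e]; exact this
  rw [sum_neg_distrib, geo] at h1
  have h3 : PO p 1 ((-1 : ℚ) ^ (N + 1) * wa N (N + 1) + (1 / 2) ^ N) := by
    have hz : (((-((N + 1 + (N + 1)).choose (N + 1) : ℕ) : ℤ) + 2 : ℤ) : ZMod p) = 0 := by
      push_cast
      rw [ch2 hN]; ring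
    have := (PO_zmod hz).mul0' ((PO.half h2).pow0 (N + 1))
    have e : (-1 : ℚ) ^ (N + 1) * wa N (N + 1) + (1 / 2) ^ N =
      (((-((N + 1 + (N + 1)).choose (N + 1) : ℕ) : ℤ) + 2 : ℤ) : ℚ) * (1 / 2) ^ (N + 1) := by
      unfold wa
      rw [if_neg (by omega), Nat.add_sub_cancel, hodd.neg_one_pow, Nat.choose_self, pow_succ]
      push_cast
      ring
    rw [e]; exact this
  have := h1.add h3
  have e : ∑ k ∈ range N, (-1 : ℚ) ^ (k + 1) * wa N (k + 1) - -(1 - (1 / 2) ^ N) +
      ((-1 : ℚ) ^ (N + 1) * wa N (N + 1) + (1 / 2) ^ N) = ∑ k ∈ range N, (-1 : ℚ) ^ (k + 1) * wa N (k + 1) +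
      (-1 : ℚ) ^ (N + 1) * wa N (N + 1) + 1 := by ring
  rwa [e] at this

include hN in
theorem S2 (h2 : p ≠ 2) : PO p 1 (∑ j ∈ range (N + 2), (-1) ^ j * wb N j) := by
  rw [sum_range_succ', sum_range_succ]
  have e0 : (-1 : ℚ) ^ 0 * wb N 0 = 0 := by simp [wb]
  have e1 : (-1 : ℚ) ^ (N + 1) * wb N (N + 1) = 0 := by simp [wb]
  rw [e0, e1, add_zero, add_zero]
  have h1 : PO p 1 (∑ k ∈ range N, (-1 : ℚ) ^ (k + 1) * wb N (k + 1) -
      ∑ k ∈ range N, (1 / 2 : ℚ) ^ (k + 1)) := by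
    apply PO.sum_sub
    intro k hk
    have hk := mem_range.1 hk
    have hz : ((((-1) ^ (k + 1) * ((N.choose (k + 1) * (N + (k + 1)).choose k : ℕ) : ℤ) - 1 : ℤ)) : ZMod p) = 0 := by
      push_cast
      rw [show N + (k + 1) = N + 1 + k by ring, ch1 hN k (by omega), ch3 hN (k + 1) (by omega)]
      have : ((-1 : ZMod p) ^ (k + 1)) * (-1) ^ (k + 1) = 1 := by rw [← mul_pow]; norm_num
      linear_combination this
    have := (PO_zmod hz).mul0' ((PO.half h2).pow0 (k + 1))
    have e : (-1 : ℚ) ^ (k + 1) * wb N (k + 1) - (1 / 2 : ℚ) ^ (k + 1) =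
      ((((-1) ^ (k + 1) * ((N.choose (k + 1) * (N + (k + 1)).choose k : ℕ) : ℤ) - 1 : ℤ)) : ℚ) *
        (1 / 2) ^ (k + 1) := by
      unfold wb
      rw [if_neg (by omega), Nat.add_sub_cancel]
      push_cast
      ring
    rw [e]; exact this
  rw [geo] at h1
  have := h1.sub (half_pow hN h2)
  have e : ∑ k ∈ range N, (-1 : ℚ) ^ (k + 1) * wb N (k + 1) - (1 - (1 / 2) ^ N) - ((1 / 2) ^ N - 1) =
    ∑ k ∈ range N, (-1 : ℚ) ^ (k + 1) * wb N (k + 1) := by ring
  rwa [e] at this

include hN in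
theorem s_pa (h2 : p ≠ 2) : PO p 1 (s (N + 1) - 1) := by
  have hodd : Odd (N + 1) := by
    rw [hN]; exact (hp.out.odd_of_ne_two h2).pow
  have hs : ∀ k : ℕ, PO p 0 ((-1 : ℚ) ^ k) := fun k => (PO.one.neg).pow0 k
  rw [s_form, hodd.neg_one_pow]
  -- approximate
  have h1 : PO p 1 (∑ i ∈ range (N + 2), ∑ j ∈ range (N + 2),
      (sg i j : ℚ) * ((-1) ^ i * (-1) ^ j * (wa N i * v N j - v (N + 1) i * wb N j)) -
      ∑ i ∈ range (N + 2), ∑ j ∈ range (N + 2),
      (sg i j : ℚ) * ((-1) ^ i * (-1) ^ j * (wa N i * (if j = 0 then 1 else 0) -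
        ((if i = 0 then 1 else 0) + (if i = N + 1 then 1 else 0)) * wb N j))) := by
    apply PO.sum_sub
    intro i _
    apply PO.sum_sub
    intro j _
    have a1 := (wa_PO h2 N i).mul0 (vN hN h2 j)
    have a2 := (vn hN h2 i).mul0' (wb_PO h2 N j)
    have a3 := (PO.of_int (p := p) (sg i j)).mul0 (((hs i).mul0 (hs j)).mul0 (a1.sub a2))
    have e : (sg i j : ℚ) * ((-1) ^ i * (-1) ^ j * (wa N i * (v N j - if j = 0 then 1 else 0) -
        (v (N + 1) i - (if i = 0 then 1 else 0) - (if i = N + 1 then 1 else 0)) * wb N j)) =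
        (sg i j : ℚ) * ((-1) ^ i * (-1) ^ j * (wa N i * v N j - v (N + 1) i * wb N j)) -
        (sg i j : ℚ) * ((-1) ^ i * (-1) ^ j * (wa N i * (if j = 0 then 1 else 0) -
        ((if i = 0 then 1 else 0) + (if i = N + 1 then 1 else 0)) * wb N j)) := by
      ring
    rw [← e]; exact a3
  have h3 : ∑ i ∈ range (N + 2), ∑ j ∈ range (N + 2),
      (sg i j : ℚ) * ((-1) ^ i * (-1) ^ j * (wa N i * (if j = 0 then 1 else 0) -
        ((if i = 0 then 1 else 0) + (if i = N + 1 then 1 else 0)) * wb N j)) =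
      ∑ i ∈ range (N + 2), (-1) ^ i * wa N i + 2 * ∑ j ∈ range (N + 2), (-1) ^ j * wb N j := by
    have t1 : ∀ i ∈ range (N + 2), ∑ j ∈ range (N + 2),
      (sg i j : ℚ) * ((-1) ^ i * (-1) ^ j * (wa N i * (if j = 0 then 1 else 0) -
        ((if i = 0 then 1 else 0) + (if i = N + 1 then 1 else 0)) * wb N j)) =
        (-1) ^ i * wa N i + (if i = 0 then ∑ j ∈ range (N + 2), (-1) ^ j * wb N j else 0) +
        (if i = N + 1 then ∑ j ∈ range (N + 2), (-1) ^ j * wb N j else 0) := by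
      intro i hi
      have hi' := mem_range.1 hi
      have u1 : (-1 : ℚ) ^ i * wa N i = ∑ j ∈ range (N + 2), if j = 0 then (-1 : ℚ) ^ i * wa N i else 0 := by
        rw [sum_ite_eq', if_pos (mem_range.2 (by omega))]
      have u2 : (if i = 0 then ∑ j ∈ range (N + 2), (-1 : ℚ) ^ j * wb N j else 0) =
          ∑ j ∈ range (N + 2), if i = 0 then (-1 : ℚ) ^ j * wb N j else 0 := by
        split_ifs <;> simp
      have u3 : (if i = N + 1 then ∑ j ∈ range (N + 2), (-1 : ℚ) ^ j * wb N j else 0) =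
          ∑ j ∈ range (N + 2), if i = N + 1 then (-1 : ℚ) ^ j * wb N j else 0 := by
        split_ifs <;> simp
      rw [u1, u2, u3, ← sum_add_distrib, ← sum_add_distrib]
      refine sum_congr rfl fun j hj => ?_
      have hj' := mem_range.1 hj
      rcases Nat.eq_zero_or_pos j with rfl | hj0
      · have hw : wb N 0 = 0 := by simp [wb]
        rw [hw]
        rcases Nat.eq_zero_or_pos i with rfl | hi0
        · have hw : wa N 0 = 0 := by simp [wa]
          rw [hw]; simp
        · have : sg i 0 = 1 := by unfold sg; rw [if_pos hi0]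
          rw [this]; simp
      · rw [if_neg (by omega : ¬ j = 0), if_neg (by omega : ¬ j = 0)]
        rcases Nat.eq_zero_or_pos i with rfl | hi0
        · have : sg 0 j = -1 := by unfold sg; rw [if_neg (by omega), if_pos hj0]
          rw [this, if_pos rfl, if_pos rfl, if_neg (by omega), if_neg (by omega)]
          push_cast; ring
        · rw [if_neg (by omega : ¬ i = 0), if_neg (by omega : ¬ i = 0)]
          by_cases hiN : i = N + 1
          · subst hiN
            rw [if_pos rfl, if_pos rfl, hodd.neg_one_pow]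
            rcases Nat.lt_or_ge j (N + 1) with h | h
            · have : sg (N + 1) j = 1 := by unfold sg; rw [if_pos h]
              rw [this]; push_cast; ring
            · have : j = N + 1 := by omega
              subst this
              have hw : wb N (N + 1) = 0 := by simp [wb]
              rw [hw]; simp
          · rw [if_neg hiN, if_neg hiN]; simp
    rw [sum_congr rfl t1, sum_add_distrib, sum_add_distrib, sum_ite_eq', sum_ite_eq',
      if_pos (mem_range.2 (by omega)), if_pos (mem_range.2 (by omega))]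
    ring
  rw [h3] at h1
  have h4 := (PO.of_nat (p := p) 2).mul0 (S2 hN h2)
  have h5 := ((h1.add (S1 hN h2)).add h4).neg
  push_cast at h5
  convert h5 using 1
  ring

include hN in
theorem P_N (h2 : p ≠ 2) : PO p 1 (P N - 1) := by
  rw [P_eq N (N + 1) le_rfl]
  have h4 : PO p 0 (-1 / 4 : ℚ) := by
    have := ((PO.half h2).mul0 (PO.half h2)).neg
    norm_num at this ⊢
    exact this
  rw [sum_range_succ', d_zero]
  simp only [Nat.cast_one, pow_zero, mul_one, add_sub_cancel_right]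
  apply PO.sum
  intro j hj
  refine (PO_nat_dvd ?_).mul0' (h4.pow0 _)
  exact Dvd.dvd.mul_left (ch4 hN j (mem_range.1 hj)) _

include hN in
theorem P_n (h2 : p ≠ 2) : PO p 1 (P (N + 1) - 1 / 2) := by
  have hodd : Odd (N + 1) := by
    rw [hN]; exact (hp.out.odd_of_ne_two h2).pow
  rw [P_eq (N + 1) (N + 2) le_rfl]
  have h4 : PO p 0 (-1 / 4 : ℚ) := by
    have := ((PO.half h2).mul0 (PO.half h2)).neg
    norm_num at this ⊢
    exact this
  rw [sum_range_succ', sum_range_succ, d_zero]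
  have h1 : PO p 1 (∑ k ∈ range N, (d (N + 1) (k + 1) : ℚ) * (-1 / 4) ^ (k + 1)) := by
    apply PO.sum
    intro k hk
    have := mem_range.1 hk
    refine (PO_nat_dvd ?_).mul0' (h4.pow0 _)
    exact Dvd.dvd.mul_right (ch0 hN (k + 1) (by omega) (by omega)) _
  have h3 : PO p 1 ((((N + 1 + (N + 1)).choose (N + 1) : ℤ) - 2 : ℤ) : ℚ) := by
    apply PO_zmod
    push_cast
    rw [ch2 hN]; ring
  have h5 := h3.mul0' (h4.pow0 (N + 1))
  have h6 := half_pow hN h2
  have h7 := (((PO.half h2).neg).mul0 ((h6.mul0' ((((PO.half h2).pow0 N)).add PO.one))))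
  have tot := (h1.add h5).add h7
  have e : ∑ k ∈ range N, (d (N + 1) (k + 1) : ℚ) * (-1 / 4) ^ (k + 1) +
      ((((N + 1 + (N + 1)).choose (N + 1) : ℤ) - 2 : ℤ) : ℚ) * (-1 / 4) ^ (N + 1) +
      -(1 / 2) * (((1 / 2 : ℚ) ^ N - 1) * ((1 / 2) ^ N + 1)) =
      ∑ k ∈ range N, (d (N + 1) (k + 1) : ℚ) * (-1 / 4) ^ (k + 1) +
      (d (N + 1) (N + 1) : ℚ) * (-1 / 4) ^ (N + 1) + (1 : ℕ) * (-1 / 4) ^ 0 - 1 / 2 := by
    unfold d
    rw [Nat.choose_self, one_mul]
    have e1 : (-1 / 4 : ℚ) ^ (N + 1) = - (1 / 4) * ((1 / 2) ^ N * (1 / 2) ^ N) := by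
      rw [show (-1 / 4 : ℚ) = (-1) * (1 / 2) * (1 / 2) by norm_num, mul_pow, mul_pow,
        hodd.neg_one_pow, pow_succ]
      ring
    rw [e1]
    push_cast
    ring
  rw [← e]; exact tot

include hN in
theorem t_pa (h2 : p ≠ 2) : PO p 1 (t (N + 1) - 1) := by
  have hodd : Odd (N + 1) := by
    rw [hN]; exact (hp.out.odd_of_ne_two h2).pow
  rw [t_eq, hodd.neg_one_pow]
  have hx := P_n hN h2
  have hy := P_N hN h2
  have hx0 := P_PO h2 (N + 1)
  have hy0 := P_PO h2 N
  have h1 := ((PO.of_int (p := p) (-4)).mul0 hy0).mul0 (hx.mul0' ((hx0.add (PO.half h2)).sub hy0))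
  have h3 := hy.mul0' (((PO.of_int (p := p) 2).mul0 hy0).add PO.one)
  have tot := h1.add h3
  convert tot using 1
  push_cast
  ring

end

end Pool.Agent.Q277.DC
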