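import Pool.Agent.Q277.DC.Base

/-!
A polynomial identity for the generating functions of `d_n(i) / 2^i` and its consequence for the
double sum `B`.
-/

set_option autoImplicit false

namespace Pool.Agent.Q277.DC

open Finset Polynomial

/-- `∑ α_i X^i`. -/
noncomputable def PP (n : ℕ) (α : ℕ → ℚ) : ℚ[X] := ∑ i ∈ range (n + 1), C (α i) * X ^ i

/-- `∑ β_j X^(n-j)`. -/
noncomputable def QQ (n : ℕ) (β : ℕ → ℚ) : ℚ[X] := ∑ j ∈ range (n + 1), C (β j) * X ^ (n - j)

theorem coeff_PP (n : ℕ) (α : ℕ → ℚ) (h : ∀ i, n < i → α i = 0) (k : ℕ) : (PP n α).coeff k = α k := by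
  unfold PP
  rw [finsetSum_coeff]
  simp only [coeff_C_mul, coeff_X_pow]
  rw [sum_eq_single k]
  · simp
  · intro b _ hb; rw [if_neg (Ne.symm hb)]; ring
  · intro hk
    rw [h k (by simpa using hk)]; ring

theorem coeff_QQ (n : ℕ) (β : ℕ → ℚ) (k : ℕ) (hk : k ≤ n) : (QQ n β).coeff k = β (n - k) := by
  unfold QQ
  rw [finsetSum_coeff]
  simp only [coeff_C_mul, coeff_X_pow]
  rw [sum_eq_single (n - k)]
  · rw [if_pos (by omega)]; ring
  · intro b hb hbk
    have hb' : b ≤ n := by simpa [Nat.lt_succ_iff] using hb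
    rw [if_neg (by omega)]; ring
  · intro h; exact absurd (mem_range.2 (by omega)) h

theorem coeff_QQ_gt (n : ℕ) (β : ℕ → ℚ) (k : ℕ) (hk : n < k) : (QQ n β).coeff k = 0 := by
  unfold QQ
  rw [finsetSum_coeff]
  apply sum_eq_zero
  intro b hb
  rw [coeff_C_mul, coeff_X_pow, if_neg (by omega)]; ring

/-- `a_i = d_n(i) / 2^i`. -/
noncomputable def v (n i : ℕ) : ℚ := d n i * (1 / 2) ^ i

theorem v_gt (n i : ℕ) (h : n < i) : v n i = 0 := by simp [v, d_gt n i h]

theorem v_zero (n : ℕ) : v n 0 = 1 := by simp [v, d_zero]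

theorem v1 (N i : ℕ) : ((N : ℚ) + 1) * v N (i + 1) =
    ((N : ℚ) + 1 - 2 * (i + 1)) * v (N + 1) (i + 1) + ((N : ℚ) + 1 - i) * v (N + 1) i := by
  have h := congrArg (Int.cast : ℤ → ℚ) (rel1 N i)
  push_cast at h
  simp only [v, pow_succ]
  linear_combination ((1 / 2) ^ i * (1 / 2)) * h

theorem v2 (N i : ℕ) : ((N : ℚ) + 1) * v (N + 1) (i + 1) =
    ((N : ℚ) + 1 + 2 * (i + 1)) * v N (i + 1) + ((N : ℚ) + 1 + i) * v N i := by
  have h := congrArg (Int.cast : ℤ → ℚ) (rel2 N i)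
  push_cast at h
  simp only [v, pow_succ]
  linear_combination ((1 / 2) ^ i * (1 / 2)) * h

variable (N : ℕ)

theorem E1 : (X + 2) * (X * derivative (PP (N + 1) (v (N + 1)))) =
    C ((N : ℚ) + 1) * ((1 + X) * PP (N + 1) (v (N + 1)) - PP (N + 1) (v N)) := by
  have ha := coeff_PP (N + 1) (v (N + 1)) (fun i hi => v_gt _ _ hi)
  have hb := coeff_PP (N + 1) (v N) (fun i hi => v_gt _ _ (by omega))
  ext k
  rw [add_mul, show (2 : ℚ[X]) = C 2 from rfl, one_add_mul, coeff_add, coeff_C_mul, coeff_C_mul,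
    coeff_sub, coeff_add]
  rcases k with _ | k
  · simp only [mul_coeff_zero, coeff_X_zero, ha, hb, v_zero]
    ring
  · rw [coeff_X_mul, coeff_X_mul, coeff_X_mul, coeff_derivative, ha, ha, hb]
    rcases k with _ | k
    · simp only [mul_coeff_zero, coeff_X_zero]
      have h := v1 N 0
      push_cast at h ⊢
      linear_combination h
    · rw [coeff_X_mul, coeff_derivative, ha]
      have h := v1 N (k + 1)
      push_cast at h ⊢
      linear_combination h

theorem E2 : (X + 2) * (X * derivative (PP (N + 1) (v N))) =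
    C ((N : ℚ) + 1) * (PP (N + 1) (v (N + 1)) - (1 + X) * PP (N + 1) (v N)) := by
  have ha := coeff_PP (N + 1) (v (N + 1)) (fun i hi => v_gt _ _ hi)
  have hb := coeff_PP (N + 1) (v N) (fun i hi => v_gt _ _ (by omega))
  ext k
  rw [add_mul, show (2 : ℚ[X]) = C 2 from rfl, one_add_mul, coeff_add, coeff_C_mul, coeff_C_mul,
    coeff_sub, coeff_add]
  rcases k with _ | k
  · simp only [mul_coeff_zero, coeff_X_zero, ha, hb, v_zero]
    ring
  · rw [coeff_X_mul, coeff_X_mul, coeff_X_mul, coeff_derivative, ha, hb, hb]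
    rcases k with _ | k
    · simp only [mul_coeff_zero, coeff_X_zero]
      have h := v2 N 0
      push_cast at h ⊢
      linear_combination -h
    · rw [coeff_X_mul, coeff_derivative, hb]
      have h := v2 N (k + 1)
      push_cast at h ⊢
      linear_combination -h

theorem E3 : (1 + 2 * X) * derivative (QQ (N + 1) (v (N + 1))) =
    C ((N : ℚ) + 1) * (QQ (N + 1) (v (N + 1)) + QQ (N + 1) (v N)) := by
  ext k
  rw [one_add_mul, show (2 : ℚ[X]) = C 2 from rfl, mul_assoc, coeff_add, coeff_C_mul, coeff_C_mul,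
    coeff_add, coeff_derivative]
  have hX : (X * derivative (QQ (N + 1) (v (N + 1)))).coeff k =
      k * (QQ (N + 1) (v (N + 1))).coeff k := by
    rcases k with _ | k
    · simp
    · rw [coeff_X_mul, coeff_derivative]; push_cast; ring
  rw [hX]
  rcases lt_trichotomy k (N + 1) with h | h | h
  · rw [coeff_QQ _ _ _ (by omega), coeff_QQ _ _ _ (by omega), coeff_QQ _ _ _ (by omega)]
    obtain ⟨j, hj⟩ : ∃ j, N + 1 = k + 1 + j := ⟨N - k, by omega⟩
    rw [show N + 1 - (k + 1) = j by omega, show N + 1 - k = j + 1 by omega]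
    have h1 := v1 N j
    have h2 : (N : ℚ) = k + j := by
      have : N = k + j := by omega
      exact_mod_cast this
    rw [h2] at h1 ⊢
    linear_combination -h1
  · subst h
    rw [coeff_QQ_gt _ _ _ (by omega), coeff_QQ _ _ _ le_rfl, coeff_QQ _ _ _ le_rfl, Nat.sub_self,
      v_zero, v_zero]
    push_cast; ring
  · rw [coeff_QQ_gt _ _ _ (by omega), coeff_QQ_gt _ _ _ h, coeff_QQ_gt _ _ _ h]
    ring

theorem E4 : (1 + 2 * X) * (X * derivative (QQ (N + 1) (v N))) =
    C ((N : ℚ) + 1) * ((2 + 3 * X) * QQ (N + 1) (v N) - X * QQ (N + 1) (v (N + 1))) := by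
  have hX : ∀ k, (X * derivative (QQ (N + 1) (v N))).coeff k =
      k * (QQ (N + 1) (v N)).coeff k := by
    intro k
    rcases k with _ | k
    · simp
    · rw [coeff_X_mul, coeff_derivative]; push_cast; ring
  ext k
  rw [one_add_mul, show (2 : ℚ[X]) = C 2 from rfl, show (3 : ℚ[X]) = C 3 from rfl, mul_assoc (C 2),
    add_mul, mul_assoc (C 3), coeff_add, coeff_C_mul, coeff_C_mul, coeff_sub, coeff_add, coeff_C_mul,
    coeff_C_mul, hX]
  rcases k with _ | k
  · rw [coeff_QQ _ _ _ (Nat.zero_le _), Nat.sub_zero, v_gt N (N + 1) (by omega)]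
    simp
  · rw [coeff_X_mul, coeff_X_mul, coeff_X_mul, hX]
    rcases lt_trichotomy k (N + 1) with h | h | h
    · rw [coeff_QQ _ _ _ (by omega), coeff_QQ _ _ _ (by omega), coeff_QQ _ _ _ (by omega)]
      obtain ⟨j, hj⟩ : ∃ j, N + 1 = k + 1 + j := ⟨N - k, by omega⟩
      rw [show N + 1 - (k + 1) = j by omega, show N + 1 - k = j + 1 by omega]
      have h1 := v2 N j
      have h2 : (N : ℚ) = k + j := by
        have : N = k + j := by omega
        exact_mod_cast this
      push_cast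
      rw [h2] at h1 ⊢
      linear_combination h1
    · subst h
      rw [coeff_QQ_gt _ _ _ (by omega), coeff_QQ _ _ _ le_rfl, coeff_QQ _ _ _ le_rfl, Nat.sub_self,
        v_zero, v_zero]
      push_cast; ring
    · rw [coeff_QQ_gt _ _ _ (by omega), coeff_QQ_gt _ _ _ h, coeff_QQ_gt _ _ _ h]
      ring

noncomputable def fs : ℚ[X] := PP (N + 1) (v (N + 1)) * QQ (N + 1) (v N) +
  PP (N + 1) (v N) * QQ (N + 1) (v (N + 1))
noncomputable def ks : ℚ[X] := PP (N + 1) (v (N + 1)) * QQ (N + 1) (v N) -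
  PP (N + 1) (v N) * QQ (N + 1) (v (N + 1))
noncomputable def hs : ℚ[X] := PP (N + 1) (v (N + 1)) * QQ (N + 1) (v (N + 1)) -
  PP (N + 1) (v N) * QQ (N + 1) (v N)

theorem idI : (X + 2) * (1 + 2 * X) * (X * derivative (fs N) - C ((N : ℚ) + 1) * fs N) =
    C ((N : ℚ) + 1) * ((1 + X) * (3 * (1 + X) * ks N - (X - 1) * hs N)) := by
  have h1 := E1 N
  have h2 := E2 N
  have h3 := E3 N
  have h4 := E4 N
  unfold fs ks hs
  rw [derivative_add, derivative_mul, derivative_mul]
  set a := PP (N + 1) (v (N + 1))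
  set b := PP (N + 1) (v N)
  set c := QQ (N + 1) (v (N + 1))
  set e := QQ (N + 1) (v N)
  linear_combination (1 + 2 * X) * e * h1 + (X + 2) * a * h4 + (1 + 2 * X) * c * h2
    + (X + 2) * b * X * h3

/-- weighted sum of the coefficients. -/
noncomputable def L (c : ℕ → ℚ) (F : ℚ[X]) : ℚ := F.sum fun k x => x * c k

theorem L_add (c : ℕ → ℚ) (F G : ℚ[X]) : L c (F + G) = L c F + L c G := by
  unfold L
  apply Polynomial.sum_add_index
  · intro i; simp
  · intro a b₁ b₂; ring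

theorem L_monomial (c : ℕ → ℚ) (m : ℕ) (x : ℚ) : L c (monomial m x) = x * c m := by
  unfold L
  rw [Polynomial.sum_monomial_index]
  simp

theorem L_C_mul (c : ℕ → ℚ) (a : ℚ) (F : ℚ[X]) : L c (C a * F) = a * L c F := by
  induction F using Polynomial.induction_on' with
  | add p q hp hq => rw [mul_add, L_add, L_add, hp, hq]; ring
  | monomial m b => rw [C_mul_monomial, L_monomial, L_monomial]; ring

theorem L_neg (c : ℕ → ℚ) (F : ℚ[X]) : L c (-F) = - L c F := by
  have := L_C_mul c (-1) F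
  rw [C_neg, C_1] at this
  rw [show -F = -1 * F by ring, this]; ring

theorem L_sub (c : ℕ → ℚ) (F G : ℚ[X]) : L c (F - G) = L c F - L c G := by
  rw [sub_eq_add_neg, L_add, L_neg]; ring

theorem L_X_mul (c : ℕ → ℚ) (F : ℚ[X]) : L c (X * F) = L (fun k => c (k + 1)) F := by
  induction F using Polynomial.induction_on' with
  | add p q hp hq => rw [mul_add, L_add, L_add, hp, hq]
  | monomial m b => rw [X_mul_monomial, L_monomial, L_monomial]

theorem L_lin (c1 c2 : ℕ → ℚ) (α β : ℚ) (F : ℚ[X]) :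
    L (fun k => α * c1 k + β * c2 k) F = α * L c1 F + β * L c2 F := by
  induction F using Polynomial.induction_on' with
  | add p q hp hq => rw [L_add, L_add, L_add, hp, hq]; ring
  | monomial m b => rw [L_monomial, L_monomial, L_monomial]; ring

theorem L_der (c : ℕ → ℚ) (F : ℚ[X]) : L c (X * derivative F) = L (fun k => k * c k) F := by
  induction F using Polynomial.induction_on' with
  | add p q hp hq => rw [derivative_add, mul_add, L_add, L_add, hp, hq]
  | monomial m b =>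
    rw [derivative_monomial, X_mul_monomial, L_monomial, L_monomial]
    rcases m with _ | m
    · simp
    · rw [Nat.add_sub_cancel]; ring

theorem L_sum {ι : Type*} (c : ℕ → ℚ) (s : Finset ι) (g : ι → ℚ[X]) :
    L c (∑ i ∈ s, g i) = ∑ i ∈ s, L c (g i) := by
  classical
  induction s using Finset.induction_on with
  | empty => simp [L]
  | insert a s ha ih => rw [sum_insert ha, sum_insert ha, L_add, ih]

theorem L_mul (c : ℕ → ℚ) (n : ℕ) (α β : ℕ → ℚ) : L c (PP n α * QQ n β) =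
    ∑ i ∈ range (n + 1), ∑ j ∈ range (n + 1), c (i + (n - j)) * (α i * β j) := by
  unfold PP QQ
  rw [sum_mul_sum, L_sum]
  refine sum_congr rfl fun i _ => ?_
  rw [L_sum]
  refine sum_congr rfl fun j _ => ?_
  have : (C (α i) * X ^ i * (C (β j) * X ^ (n - j)) : ℚ[X]) = monomial (i + (n - j)) (α i * β j) := by
    rw [← C_mul_X_pow_eq_monomial, C_mul, pow_add]; ring
  rw [this, L_monomial]; ring

/-- the weight `⌊(k-n-1)/2⌋`. -/
def cw (n k : ℕ) : ℚ := (((k - n - 1) / 2 : ℕ) : ℚ)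

def cw0 (n k : ℕ) : ℚ := if n < k then (-1) ^ (k - n - 1) else 0

def cw4 (n k : ℕ) : ℚ := (((k - n) / 2 : ℕ) : ℚ)

def cw2 (n k : ℕ) : ℤ := (((k + 2 - n - 1) / 2 : ℕ) : ℤ) + 2 * (((k + 1 - n - 1) / 2 : ℕ) : ℤ)
  + (((k - n - 1) / 2 : ℕ) : ℤ)

def cw3 (n k : ℕ) : ℚ := if n < k then 1 else 0

theorem w1_eq (n k : ℕ) : 2 * cw n (k + 2) + 5 * cw n (k + 1) + 2 * cw n k =
    9 * cw4 n k + 2 * cw0 n k := by
  unfold cw cw4 cw0
  split_ifs with h
  · obtain ⟨m, rfl⟩ : ∃ m, k = n + m + 1 := ⟨k - n - 1, by omega⟩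
    rw [show n + m + 1 + 2 - n - 1 = m + 2 by omega, show n + m + 1 + 1 - n - 1 = m + 1 by omega,
      show n + m + 1 - n - 1 = m by omega, show n + m + 1 - n = m + 1 by omega]
    rcases Nat.even_or_odd m with ⟨t, ht⟩ | ⟨t, ht⟩
    · rw [show (m + 2) / 2 = t + 1 by omega, show (m + 1) / 2 = t by omega,
        show m / 2 = t by omega, Even.neg_one_pow ⟨t, ht⟩]
      push_cast; ring
    · rw [show (m + 2) / 2 = t + 1 by omega, show (m + 1) / 2 = t + 1 by omega,
        show m / 2 = t by omega, Odd.neg_one_pow ⟨t, ht⟩]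
      push_cast; ring
  · rw [show (k + 2 - n - 1) / 2 = 0 by omega, show (k + 1 - n - 1) / 2 = 0 by omega,
      show (k - n - 1) / 2 = 0 by omega, show (k - n) / 2 = 0 by omega]
    simp

theorem w3_eq (n k : ℕ) : cw n (k + 2) - cw n k = cw3 n k := by
  unfold cw cw3
  split_ifs with h
  · rw [show (k + 2 - n - 1) / 2 = (k - n - 1) / 2 + 1 by omega]
    push_cast; ring
  · rw [show (k + 2 - n - 1) / 2 = 0 by omega, show (k - n - 1) / 2 = 0 by omega]
    simp

theorem w2_eq (n k : ℕ) : cw n (k + 2) + 2 * cw n (k + 1) + cw n k = (cw2 n k : ℚ) := by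
  unfold cw cw2
  rw [Int.cast_add, Int.cast_add, Int.cast_mul]
  simp only [Int.cast_natCast, Int.cast_ofNat]

theorem L_congr (c1 c2 : ℕ → ℚ) (h : ∀ k, c1 k = c2 k) (F : ℚ[X]) : L c1 F = L c2 F := by
  have : c1 = c2 := funext h
  rw [this]

theorem idL : 9 * L (cw4 (N + 1)) (X * derivative (fs N) - C ((N : ℚ) + 1) * fs N) +
    2 * L (cw0 (N + 1)) (X * derivative (fs N) - C ((N : ℚ) + 1) * fs N) =
    ((N : ℚ) + 1) * (3 * L (fun k => (cw2 (N + 1) k : ℚ)) (ks N) - L (cw3 (N + 1)) (hs N)) := by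
  have h := congrArg (L (cw (N + 1))) (idI N)
  set E := X * derivative (fs N) - C ((N : ℚ) + 1) * fs N
  have e1 : (X + 2) * (1 + 2 * X) * E = C 2 * (X * (X * E)) + C 5 * (X * E) + C 2 * E := by
    rw [show (2 : ℚ[X]) = C 2 from rfl, show (C 5 : ℚ[X]) = C 1 + C 2 * C 2 by
      rw [← C_mul, ← C_add]; norm_num, C_1]
    ring
  have e2 : (1 + X) * (3 * (1 + X) * ks N - (X - 1) * hs N) =
      C 3 * (X * (X * ks N) + C 2 * (X * ks N) + ks N) - (X * (X * hs N) - hs N) := by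
    rw [show (3 : ℚ[X]) = C 3 from rfl, show (C 2 : ℚ[X]) = 1 + 1 by rw [← C_1, ← C_add]; norm_num]
    ring
  rw [e1, e2] at h
  simp only [L_add, L_sub, L_C_mul, L_X_mul] at h
  have g1 := L_lin (cw4 (N + 1)) (cw0 (N + 1)) 9 2 E
  have g2 := L_lin (fun k => cw (N + 1) (k + 2)) (fun k => 5 * cw (N + 1) (k + 1) + 2 * cw (N + 1) k)
    2 1 E
  have g3 := L_lin (fun k => cw (N + 1) (k + 1)) (cw (N + 1)) 5 2 E
  have g4 := L_congr (fun k => 9 * cw4 (N + 1) k + 2 * cw0 (N + 1) k)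
    (fun k => 2 * cw (N + 1) (k + 2) + 1 * (5 * cw (N + 1) (k + 1) + 2 * cw (N + 1) k))
    (fun k => by rw [← w1_eq]; ring) E
  have f2 := L_lin (fun k => cw (N + 1) (k + 2)) (fun k => 2 * cw (N + 1) (k + 1) + 1 * cw (N + 1) k)
    1 1 (ks N)
  have f3 := L_lin (fun k => cw (N + 1) (k + 1)) (cw (N + 1)) 2 1 (ks N)
  have f4 := L_congr (fun k => (cw2 (N + 1) k : ℚ))
    (fun k => 1 * cw (N + 1) (k + 2) + 1 * (2 * cw (N + 1) (k + 1) + 1 * cw (N + 1) k))
    (fun k => by rw [← w2_eq]; ring) (ks N)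
  have k2 := L_lin (fun k => cw (N + 1) (k + 2)) (cw (N + 1)) 1 (-1) (hs N)
  have k4 := L_congr (cw3 (N + 1)) (fun k => 1 * cw (N + 1) (k + 2) + -1 * cw (N + 1) k)
    (fun k => by rw [← w3_eq]; ring) (hs N)
  have e3 : ∀ F : ℚ[X], L (fun k => cw (N + 1) (k + 1 + 1)) F = L (fun k => cw (N + 1) (k + 2)) F :=
    fun F => rfl
  simp only [e3] at h
  rw [f4, f2, f3, k4, k2, ← g1, g4, g2, g3]
  linear_combination h

end Pool.Agent.Q277.DC
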