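import Pool.Agent.Q277.DC.Poly

/-!
Two formulas for `s(n) = T(n) / n^2`.
-/

set_option autoImplicit false

namespace Pool.Agent.Q277.DC

open Finset Polynomial

/-- `i a_i / n`. -/
noncomputable def wa (N i : ℕ) : ℚ :=
  if i = 0 then 0 else ((N.choose (i - 1) * (N + 1 + i).choose i : ℕ) : ℚ) * (1 / 2) ^ i

/-- `j b_j / n`. -/
noncomputable def wb (N j : ℕ) : ℚ :=
  if j = 0 then 0 else ((N.choose j * (N + j).choose (j - 1) : ℕ) : ℚ) * (1 / 2) ^ j

theorem wa_eq (N i : ℕ) : (i : ℚ) * v (N + 1) i = ((N : ℚ) + 1) * wa N i := by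
  rcases i with _ | i
  · simp [wa]
  · have h := congrArg (Nat.cast : ℕ → ℚ) (e1 N i)
    unfold wa v
    rw [if_neg (Nat.succ_ne_zero i), Nat.add_sub_cancel]
    push_cast at h ⊢
    linear_combination (1 / 2) ^ (i + 1) * h

theorem wb_eq (N j : ℕ) : (j : ℚ) * v N j = ((N : ℚ) + 1) * wb N j := by
  rcases j with _ | j
  · simp [wb]
  · have h := congrArg (Nat.cast : ℕ → ℚ) (e2 N j)
    unfold wb v
    rw [if_neg (Nat.succ_ne_zero j), Nat.add_sub_cancel]
    push_cast at h ⊢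
    linear_combination (1 / 2) ^ (j + 1) * h

/-- `s(n)`, `n = N+1`. -/
noncomputable def s (n : ℕ) : ℚ := 1 / (n : ℚ) ^ 2 * T n

/-- the sign of `i - j`. -/
def sg (i j : ℕ) : ℤ := if j < i then 1 else if i < j then -1 else 0

theorem ab_sg (i j : ℕ) : ab i j = (sg i j : ℚ) * ((i : ℚ) - j) := by
  unfold ab sg
  split_ifs with h1 h2
  · rw [abs_of_pos (by omega)]; push_cast; ring
  · rw [abs_of_neg (by omega)]; push_cast; ring
  · have : i = j := by omega
    subst this; simp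

theorem u_v (n i : ℕ) : u n i = (-1) ^ i * v n i := by
  unfold u v
  rw [show (-1 / 2 : ℚ) = (-1) * (1 / 2) by norm_num, mul_pow]; ring

theorem s_form (N : ℕ) : s (N + 1) = (-1) ^ (N + 1) * ∑ i ∈ range (N + 2), ∑ j ∈ range (N + 2),
    (sg i j : ℚ) * ((-1) ^ i * (-1) ^ j * (wa N i * v N j - v (N + 1) i * wb N j)) := by
  unfold s
  rw [T_eq N (N + 2) le_rfl]
  have hn : ((N : ℚ) + 1) ≠ 0 := by positivity
  have e : B (N + 2) (u (N + 1)) (u N) = ((N : ℚ) + 1) * ∑ i ∈ range (N + 2), ∑ j ∈ range (N + 2),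
      (sg i j : ℚ) * ((-1) ^ i * (-1) ^ j * (wa N i * v N j - v (N + 1) i * wb N j)) := by
    unfold B
    rw [mul_sum]
    refine sum_congr rfl fun i _ => ?_
    rw [mul_sum]
    refine sum_congr rfl fun j _ => ?_
    rw [ab_sg, u_v, u_v]
    have h1 := wa_eq N i
    have h2 := wb_eq N j
    linear_combination (sg i j : ℚ) * (-1) ^ i * (-1) ^ j * (v N j * h1 - v (N + 1) i * h2)
  rw [e]
  push_cast
  field_simp

theorem B_s (N : ℕ) : B (N + 2) (u (N + 1)) (u N) = (-1) ^ (N + 1) * (((N : ℚ) + 1) * s (N + 1)) := by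
  unfold s
  rw [T_eq N (N + 2) le_rfl]
  have hn : ((N : ℚ) + 1) ≠ 0 := by positivity
  have h1 : ((-1 : ℚ) ^ (N + 1)) * (-1) ^ (N + 1) = 1 := by rw [← mul_pow]; norm_num
  push_cast
  field_simp
  linear_combination (-B (N + 2) (u (N + 1)) (u N)) * h1

theorem L_E (N : ℕ) (c : ℕ → ℚ) : L c (X * derivative (fs N) - C ((N : ℚ) + 1) * fs N) =
    ∑ i ∈ range (N + 2), ∑ j ∈ range (N + 2), ((c (i + (N + 1 - j)) - c (j + (N + 1 - i))) *
      ((i : ℚ) - j)) * (v (N + 1) i * v N j) := by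
  rw [L_sub, L_der, L_C_mul]
  have e1 := L_lin (fun k => (k : ℚ) * c k) c 1 (-((N : ℚ) + 1)) (fs N)
  have e2 : L (fun k => (k : ℚ) * c k) (fs N) - ((N : ℚ) + 1) * L c (fs N) =
      L (fun k => 1 * ((k : ℚ) * c k) + -((N : ℚ) + 1) * c k) (fs N) := by
    rw [e1]; ring
  rw [e2]
  unfold fs
  rw [L_add, L_mul, L_mul]
  nth_rewrite 2 [sum_comm]
  rw [← sum_add_distrib]
  refine sum_congr rfl fun i hi => ?_
  rw [← sum_add_distrib]
  refine sum_congr rfl fun j hj => ?_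
  have hi' : i ≤ N + 1 := by simpa [Nat.lt_succ_iff] using hi
  have hj' : j ≤ N + 1 := by simpa [Nat.lt_succ_iff] using hj
  have c1 : ((i + (N + 1 - j) : ℕ) : ℚ) = i + ((N : ℚ) + 1) - j := by
    rw [Nat.cast_add, Nat.cast_sub hj']; push_cast; ring
  have c2 : ((j + (N + 1 - i) : ℕ) : ℚ) = j + ((N : ℚ) + 1) - i := by
    rw [Nat.cast_add, Nat.cast_sub hi']; push_cast; ring
  rw [c1, c2]
  ring

theorem L_w0 (N : ℕ) : L (cw0 (N + 1)) (X * derivative (fs N) - C ((N : ℚ) + 1) * fs N) =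
    - B (N + 2) (u (N + 1)) (u N) := by
  rw [L_E]
  unfold B
  rw [← sum_neg_distrib]
  refine sum_congr rfl fun i hi => ?_
  rw [← sum_neg_distrib]
  refine sum_congr rfl fun j hj => ?_
  have hi' : i ≤ N + 1 := by simpa [Nat.lt_succ_iff] using hi
  have hj' : j ≤ N + 1 := by simpa [Nat.lt_succ_iff] using hj
  have key : cw0 (N + 1) (i + (N + 1 - j)) - cw0 (N + 1) (j + (N + 1 - i)) =
      - ((sg i j : ℚ) * ((-1) ^ i * (-1) ^ j)) := by
    unfold cw0 sg
    rcases lt_trichotomy i j with h | h | h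
    · rw [if_neg (by omega), if_pos (by omega), if_neg (by omega), if_pos h]
      obtain ⟨m, rfl⟩ : ∃ m, j = i + m + 1 := ⟨j - i - 1, by omega⟩
      rw [show i + m + 1 + (N + 1 - i) - (N + 1) - 1 = m by omega]
      have : ((-1 : ℚ) ^ i) * (-1) ^ i = 1 := by rw [← mul_pow]; norm_num
      rw [pow_succ, pow_add]
      push_cast
      linear_combination ((-1) ^ m) * this
    · subst h
      simp
    · rw [if_pos (by omega), if_neg (by omega), if_pos h]
      obtain ⟨m, rfl⟩ : ∃ m, i = j + m + 1 := ⟨i - j - 1, by omega⟩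
      rw [show j + m + 1 + (N + 1 - j) - (N + 1) - 1 = m by omega]
      have : ((-1 : ℚ) ^ j) * (-1) ^ j = 1 := by rw [← mul_pow]; norm_num
      rw [pow_succ, pow_add]
      push_cast
      linear_combination (-(-1) ^ m) * this
  rw [key, ab_sg, u_v, u_v]
  ring

/-- `18 Y'` and `6 K` carry integral weights. -/
noncomputable def Yp (N : ℕ) : ℚ := ∑ i ∈ range (N + 2), ∑ j ∈ range (N + 2),
  (cw4 (N + 1) (i + (N + 1 - j)) - cw4 (N + 1) (j + (N + 1 - i))) *
    (wa N i * v N j - v (N + 1) i * wb N j)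

noncomputable def Kp (N : ℕ) : ℚ := ∑ i ∈ range (N + 2), ∑ j ∈ range (N + 2),
  ((cw2 (N + 1) (i + (N + 1 - j)) : ℚ) - (cw2 (N + 1) (j + (N + 1 - i)) : ℚ)) *
    (v (N + 1) i * v N j)

theorem L_w4 (N : ℕ) : L (cw4 (N + 1)) (X * derivative (fs N) - C ((N : ℚ) + 1) * fs N) =
    ((N : ℚ) + 1) * Yp N := by
  rw [L_E]
  unfold Yp
  rw [mul_sum]
  refine sum_congr rfl fun i _ => ?_
  rw [mul_sum]
  refine sum_congr rfl fun j _ => ?_
  have h1 := wa_eq N i
  have h2 := wb_eq N j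
  linear_combination (cw4 (N + 1) (i + (N + 1 - j)) - cw4 (N + 1) (j + (N + 1 - i))) *
    (v N j * h1 - v (N + 1) i * h2)

theorem L_w2 (N : ℕ) : L (fun k => (cw2 (N + 1) k : ℚ)) (ks N) = Kp N := by
  unfold ks Kp
  rw [L_sub, L_mul, L_mul]
  nth_rewrite 2 [sum_comm]
  rw [← sum_sub_distrib]
  refine sum_congr rfl fun i _ => ?_
  rw [← sum_sub_distrib]
  refine sum_congr rfl fun j _ => ?_
  ring

theorem L_w3_one (n : ℕ) (α : ℕ → ℚ) : 2 * L (cw3 n) (PP n α * QQ n α) =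
    (∑ i ∈ range (n + 1), α i) ^ 2 - ∑ i ∈ range (n + 1), α i ^ 2 := by
  rw [L_mul]
  have e1 : ∑ i ∈ range (n + 1), ∑ j ∈ range (n + 1), cw3 n (i + (n - j)) * (α i * α j) =
      ∑ i ∈ range (n + 1), ∑ j ∈ range (n + 1), (if j < i then α i * α j else 0) := by
    refine sum_congr rfl fun i _ => sum_congr rfl fun j hj => ?_
    have hj' : j ≤ n := by simpa [Nat.lt_succ_iff] using hj
    unfold cw3
    by_cases h : j < i
    · rw [if_pos (by omega), if_pos h]; ring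
    · rw [if_neg (by omega), if_neg h]; ring
  have e2 : ∑ i ∈ range (n + 1), ∑ j ∈ range (n + 1), (if j < i then α i * α j else 0) =
      ∑ i ∈ range (n + 1), ∑ j ∈ range (n + 1), (if i < j then α i * α j else 0) := by
    rw [sum_comm]
    refine sum_congr rfl fun i _ => sum_congr rfl fun j _ => ?_
    rw [mul_comm]
  have e3 : ∑ i ∈ range (n + 1), α i ^ 2 = ∑ i ∈ range (n + 1), ∑ j ∈ range (n + 1),
      (if i = j then α i * α j else 0) := by
    refine sum_congr rfl fun i hi => ?_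
    rw [sum_ite_eq, if_pos hi]; ring
  rw [e1, two_mul]
  nth_rewrite 2 [e2]
  rw [e3, pow_two, sum_mul_sum, ← sum_add_distrib, ← sum_sub_distrib]
  refine sum_congr rfl fun i _ => ?_
  rw [← sum_add_distrib, ← sum_sub_distrib]
  refine sum_congr rfl fun j _ => ?_
  rcases lt_trichotomy i j with h | h | h
  · rw [if_neg (by omega), if_pos h, if_neg (by omega)]; ring
  · subst h; simp
  · rw [if_pos h, if_neg (by omega), if_neg (by omega)]; ring

/-- the main identity. -/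
theorem main_id (N : ℕ) : -4 * (-1) ^ (N + 1) * s (N + 1) = 6 * Kp N - 18 * Yp N
    - ((∑ i ∈ range (N + 2), v (N + 1) i) ^ 2 - (∑ i ∈ range (N + 2), v N i) ^ 2)
    + (∑ i ∈ range (N + 2), v (N + 1) i ^ 2 - ∑ i ∈ range (N + 2), v N i ^ 2) := by
  have h := idL N
  rw [L_w4, L_w0, L_w2, B_s] at h
  have h3 : 2 * L (cw3 (N + 1)) (hs N) =
      ((∑ i ∈ range (N + 2), v (N + 1) i) ^ 2 - (∑ i ∈ range (N + 2), v N i) ^ 2)
    - (∑ i ∈ range (N + 2), v (N + 1) i ^ 2 - ∑ i ∈ range (N + 2), v N i ^ 2) := by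
    unfold hs
    rw [L_sub, mul_sub, L_w3_one, L_w3_one]; ring
  have hn : ((N : ℚ) + 1) ≠ 0 := by positivity
  apply mul_left_cancel₀ hn
  linear_combination 2 * h - ((N : ℚ) + 1) * h3

end Pool.Agent.Q277.DC
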