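import Pool.Agent.Q277.DC.Den

/-!
The part for `t(n)`.
-/

set_option autoImplicit false

namespace Pool.Agent.Q277.DC

open Finset Pool.Agent.H434R2

/-- `D_n(-1/4)`. -/
noncomputable def P (n : ℕ) : ℚ :=
  ∑ k ∈ range (n + 1), (n.choose k : ℚ) * ((n + k).choose k : ℚ) * (-1 / 4) ^ k

theorem P_eq (n M : ℕ) (hM : n + 1 ≤ M) : P n = ∑ i ∈ range M, (d n i : ℚ) * (-1 / 4) ^ i := by
  have h : ∑ i ∈ range (n + 1), (d n i : ℚ) * (-1 / 4) ^ i =
      ∑ i ∈ range M, (d n i : ℚ) * (-1 / 4) ^ i := by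
    apply sum_subset
    · intro x hx
      simp only [mem_range] at hx ⊢
      omega
    · intro x _ hx
      simp only [mem_range, not_lt] at hx
      rw [d_gt n x (by omega)]; simp
  rw [← h]
  unfold P d
  refine sum_congr rfl fun k _ => ?_
  push_cast
  ring

theorem P_zero : P 0 = 1 := by simp [P]

theorem P_one : P 1 = 1 / 2 := by simp [P, sum_range_succ]; norm_num

theorem P_rec (N : ℕ) : ((N : ℚ) + 2) * P (N + 2) + ((N : ℚ) + 1) * P N =
    (2 * (N : ℚ) + 3) * (1 / 2) * P (N + 1) := by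
  rw [P_eq (N + 2) (N + 3) le_rfl, P_eq N (N + 3) (by omega), P_eq (N + 1) (N + 3) (by omega),
    mul_sum, mul_sum, ← sum_add_distrib, sum_range_succ']
  have h1 : ∀ i ∈ range (N + 2), ((N : ℚ) + 2) * ((d (N + 2) (i + 1) : ℚ) * (-1 / 4) ^ (i + 1)) +
      ((N : ℚ) + 1) * ((d N (i + 1) : ℚ) * (-1 / 4) ^ (i + 1)) =
      (2 * (N : ℚ) + 3) * ((d (N + 1) (i + 1) : ℚ) * (-1 / 4) ^ (i + 1)) -
      (2 * (N : ℚ) + 3) * (1 / 2) * ((d (N + 1) i : ℚ) * (-1 / 4) ^ i) := by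
    intro i _
    have h := congrArg (Int.cast : ℤ → ℚ) (rel3 N i)
    push_cast at h
    rw [pow_succ]
    linear_combination ((-1 / 4) ^ i * (-1 / 4)) * h
  rw [sum_congr rfl h1, sum_sub_distrib, ← mul_sum, ← mul_sum, d_zero, d_zero]
  have h2 := sum_range_succ' (fun i => (d (N + 1) i : ℚ) * (-1 / 4) ^ i) (N + 2)
  have h3 := sum_range_succ (fun i => (d (N + 1) i : ℚ) * (-1 / 4) ^ i) (N + 2)
  rw [d_gt (N + 1) (N + 2) (by omega)] at h3
  rw [d_zero] at h2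
  push_cast at *
  linear_combination (-(2 * (N : ℚ) + 3)) * h2 + (2 * (N : ℚ) + 3) * (1 / 2) * h3

/-- the sum for `t`. -/
noncomputable def U (n : ℕ) : ℚ := ∑ k ∈ range n, (2 * (k : ℚ) + 1) * (-1) ^ k * P k ^ 3

theorem U_eq (N : ℕ) : U (N + 1) = (-1) ^ (N + 1) * 4 * ((N : ℚ) + 1) ^ 2 * (P (N + 1) * P N * (P (N + 1) - P N)) := by
  induction N with
  | zero => simp [U, P_zero, P_one]; norm_num
  | succ N ih =>
    have h1 : U (N + 1 + 1) = U (N + 1) + (2 * ((N + 1 : ℕ) : ℚ) + 1) * (-1) ^ (N + 1) * P (N + 1) ^ 3 := by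
      unfold U; rw [sum_range_succ]
    have h := P_rec N
    rw [h1, ih, show N + 1 + 1 = N + 2 by ring, pow_succ (-1 : ℚ) (N + 1)]
    push_cast
    have key : 4 * ((N : ℚ) + 2) ^ 2 * (P (N + 2) * P (N + 1) * (P (N + 2) - P (N + 1))) +
        4 * ((N : ℚ) + 1) ^ 2 * (P (N + 1) * P N * (P (N + 1) - P N)) =
        - (2 * ((N : ℚ) + 1) + 1) * P (N + 1) ^ 3 := by
      linear_combination (4 * P (N + 1) * (((N : ℚ) + 2) * P (N + 2) - ((N : ℚ) + 1) * P N)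
        - 2 * P (N + 1) ^ 2) * h
    linear_combination (-1) ^ (N + 1) * key

/-- `t(n)`. -/
noncomputable def t (n : ℕ) : ℚ := 1 / (n : ℚ) ^ 2 * U n

theorem t_eq (N : ℕ) : t (N + 1) = (-1) ^ (N + 1) * 4 * (P (N + 1) * P N * (P (N + 1) - P N)) := by
  unfold t
  rw [U_eq]
  have hn : ((N : ℚ) + 1) ≠ 0 := by positivity
  push_cast
  field_simp

/-- `E_n = 2^{n+ν} P_n`. -/
noncomputable def E (n : ℕ) : ℚ := 2 ^ (n + nu n) * P n

theorem nu_zero : nu 0 = 0 := by simp [nu]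
theorem nu_one : nu 1 = 0 := by simp [nu]

theorem nu_mono (n : ℕ) : ∃ a o : ℕ, ¬ 2 ∣ o ∧ n + 1 = 2 ^ a * o ∧ nu (n + 1) = a + nu n ∧
    padicValNat 2 (n + 1) = a := by
  obtain ⟨a, o, ho, he, hv⟩ := nu_succ n
  refine ⟨a, o, ho, he, hv, ?_⟩
  rw [he, padicValNat.mul (by positivity) (by rintro rfl; simp at ho),
    padicValNat.prime_pow, padicValNat.eq_zero_of_not_dvd ho, add_zero]

theorem E_two (n : ℕ) : PO 2 1 (E n - 1) ∧ PO 2 1 (E (n + 1) - 1) := by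
  induction n with
  | zero =>
    constructor
    · simp [E, P_zero, nu_zero]; exact PO.zero 1
    · simp [E, P_one, nu_one]; exact PO.zero 1
  | succ n ih =>
    refine ⟨ih.2, ?_⟩
    obtain ⟨a, o, ho, he, hv⟩ := nu_succ (n + 1)
    obtain ⟨b, o', ho', he', hv'⟩ := nu_succ n
    have h := P_rec n
    have ho0 : (o : ℚ) ≠ 0 := by
      have : o ≠ 0 := by rintro rfl; simp at ho
      exact_mod_cast this
    have heq : ((n : ℚ) + 2) = 2 ^ a * o := by
      have : n + 2 = 2 ^ a * o := he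
      exact_mod_cast this
    have key : (o : ℚ) * E (n + 1 + 1) = (2 * (n : ℚ) + 3) * E (n + 1) -
        4 * ((n : ℚ) + 1) * 2 ^ b * E n := by
      unfold E
      rw [hv, hv', show n + 1 + 1 + (a + (b + nu n)) = (n + nu n) + (a + b + 2) by ring,
        show n + 1 + (b + nu n) = (n + nu n) + (b + 1) by ring]
      simp only [pow_add]
      rw [show n + 1 + 1 = n + 2 by ring]
      linear_combination (4 * 2 ^ b * 2 ^ n * 2 ^ nu n) * h
        - (4 * 2 ^ b * 2 ^ n * 2 ^ nu n * P (n + 2)) * heq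
    have h1 : PO 2 1 ((2 * (n : ℚ) + 3) * (E (n + 1) - 1)) := by
      have := (PO.of_nat (p := 2) (2 * n + 3)).mul0 ih.2
      push_cast at this
      exact this
    have hE : PO 2 0 (E n) := by
      have := (ih.1.mono (Nat.zero_le _)).add PO.one
      rwa [sub_add_cancel] at this
    have h2 : PO 2 1 ((((4 * ((n : ℤ) + 1) * 2 ^ b) : ℤ) : ℚ) * E n) := by
      refine (PO_int 2 1 _ ?_).mul0' hE
      exact ⟨2 * ((n : ℤ) + 1) * 2 ^ b, by push_cast; ring⟩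
    have h3 : PO 2 1 (((2 * (n : ℤ) + 3 - o : ℤ)) : ℚ) := by
      apply PO_int
      push_cast
      omega
    have tot := (h1.sub h2).add h3
    have e : (2 * (n : ℚ) + 3) * (E (n + 1) - 1) - (((4 * ((n : ℤ) + 1) * 2 ^ b) : ℤ) : ℚ) * E n +
        (((2 * (n : ℤ) + 3 - o : ℤ)) : ℚ) = (o : ℚ) * (E (n + 1 + 1) - 1) := by
      push_cast
      linear_combination -key
    rw [e] at tot
    have := (PO.inv_nat ho).mul0 tot
    have e2 : (o : ℚ)⁻¹ * ((o : ℚ) * (E (n + 1 + 1) - 1)) = E (n + 1 + 1) - 1 := by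
      field_simp
    rwa [e2] at this

theorem P_PO {q : ℕ} [Fact q.Prime] (h2 : q ≠ 2) (n : ℕ) : PO q 0 (P n) := by
  rw [P_eq n (n + 1) le_rfl]
  refine PO.sum _ _ fun i _ => (PO.of_nat _).mul0 (PO.pow0 ?_ i)
  have := (PO.half h2).mul0 (PO.half h2)
  have := this.neg
  norm_num at this ⊢
  exact this

theorem t_PO {q : ℕ} [Fact q.Prime] (h2 : q ≠ 2) (N : ℕ) : PO q 0 (t (N + 1)) := by
  rw [t_eq]
  have h1 := P_PO h2 N
  have h3 := P_PO h2 (N + 1)
  have h4 : PO q 0 (4 : ℚ) := by exact_mod_cast PO.of_nat (p := q) 4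
  exact ((((PO.one.neg).pow0 _).mul0 h4).mul0 ((h3.mul0 h1).mul0 (h3.sub h1)))

theorem t_two (N : ℕ) : PO 2 1 ((2 : ℚ) ^ (3 * (N + nu (N + 1)) - padicValNat 2 (N + 1)) * t (N + 1) - 1) := by
  obtain ⟨a, o, ho, he, hv, hp⟩ := nu_mono N
  rw [hp, t_eq]
  have h1 := (E_two N).1
  have h2 := (E_two N).2
  have e : (2 : ℚ) ^ (3 * (N + nu (N + 1)) - a) * ((-1) ^ (N + 1) * 4 * (P (N + 1) * P N * (P (N + 1) - P N))) =
      (-1) ^ (N + 1) * (E (N + 1) * E N * (E (N + 1) - 2 * 2 ^ a * E N)) := by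
    unfold E
    rw [hv, show 3 * (N + (a + nu N)) - a = (N + nu N) + (N + nu N) + (N + nu N) + a + a by omega,
      show N + 1 + (a + nu N) = (N + nu N) + (a + 1) by ring]
    generalize N + nu N = m
    simp only [pow_add]
    ring
  rw [e]
  have hE : PO 2 0 (E N) := by
    have := (h1.mono (Nat.zero_le _)).add PO.one
    rwa [sub_add_cancel] at this
  have hE1 : PO 2 0 (E (N + 1)) := by
    have := (h2.mono (Nat.zero_le _)).add PO.one
    rwa [sub_add_cancel] at this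
  have hs : PO 2 0 ((-1 : ℚ) ^ (N + 1)) := (PO.one.neg).pow0 _
  have h3 : PO 2 1 ((((2 * 2 ^ a) : ℤ) : ℚ) * E N) := by
    refine (PO_int 2 1 _ ?_).mul0' hE
    exact ⟨2 ^ a, by push_cast; ring⟩
  have h4 : PO 2 1 ((-1 : ℚ) ^ (N + 1) - 1) := by
    rcases Nat.even_or_odd (N + 1) with hN | hN
    · rw [hN.neg_one_pow, sub_self]; exact PO.zero 1
    · rw [hN.neg_one_pow]
      have := PO_int 2 1 (-2) (by norm_num)
      push_cast at this
      rw [show (-1 - 1 : ℚ) = -2 by norm_num]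
      exact this
  -- x y (x - z) s - 1 with x, y, s = 1 mod 2, z = 0 mod 2
  have f1 := (hs.mul0 (hE1.mul0 hE)).mul0 h3
  have f2 := (hs.mul0 (hE.mul0 hE1)).mul0 h2
  have f3 := (hs.mul0 hE1).mul0 h1
  have f4 := hs.mul0 h2
  have tot := (((f2.sub f1).add f3).add f4).add h4
  have e3 : (-1 : ℚ) ^ (N + 1) * (E N * E (N + 1)) * (E (N + 1) - 1) -
      (-1) ^ (N + 1) * (E (N + 1) * E N) * ((((2 * 2 ^ a) : ℤ) : ℚ) * E N) +
      (-1) ^ (N + 1) * E (N + 1) * (E N - 1) + (-1) ^ (N + 1) * (E (N + 1) - 1) +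
      ((-1 : ℚ) ^ (N + 1) - 1) =
      (-1) ^ (N + 1) * (E (N + 1) * E N * (E (N + 1) - 2 * 2 ^ a * E N)) - 1 := by
    push_cast
    ring
  rw [e3] at tot
  exact tot

theorem t_den (N : ℕ) : (t (N + 1)).den = 2 ^ (3 * (N + nu (N + 1)) - padicValNat 2 (N + 1)) :=
  (num_den_of _ _ (t_two N) fun _ _ hq => t_PO hq N).1

end Pool.Agent.Q277.DC
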