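import Pool.Agent.Q277.DC.Mod3

/-!
The `2`-adic part for `s(n)`.
-/

set_option autoImplicit false

namespace Pool.Agent.Q277.DC

open Finset Pool.Agent.H434R2

instance : Fact (Nat.Prime 2) := ⟨by norm_num⟩

/-- product of the odd numbers below `2a`. -/
def W (a : ℕ) : ℕ := ∏ l ∈ range a, (2 * l + 1)

theorem W_odd (a : ℕ) : ¬ 2 ∣ W a := by
  induction a with
  | zero => simp [W]
  | succ a ih =>
    unfold W at *
    rw [prod_range_succ, Nat.Prime.dvd_mul (by norm_num)]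
    omega

theorem fac_even (a : ℕ) : (2 * a).factorial = 2 ^ a * a.factorial * W a := by
  induction a with
  | zero => simp [W]
  | succ a ih =>
    rw [show 2 * (a + 1) = 2 * a + 1 + 1 by ring, Nat.factorial_succ, Nat.factorial_succ, ih,
      Nat.factorial_succ, pow_succ]
    unfold W
    rw [prod_range_succ]
    ring

theorem fac_gen (n : ℕ) : n.factorial = 2 ^ (n / 2) * (n / 2).factorial * W ((n + 1) / 2) := by
  rcases Nat.even_or_odd n with ⟨a, ha⟩ | ⟨a, ha⟩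
  · rw [show n / 2 = a by omega, show (n + 1) / 2 = a by omega, show n = 2 * a by omega]
    exact fac_even a
  · rw [show n / 2 = a by omega, show (n + 1) / 2 = a + 1 by omega, ha, Nat.factorial_succ,
      fac_even a]
    unfold W
    rw [prod_range_succ]; ring

/-- exponent of `2` in `n!`. -/
def nu (n : ℕ) : ℕ := padicValNat 2 n.factorial

theorem nu_spec (n : ℕ) : ∃ m : ℕ, ¬ 2 ∣ m ∧ n.factorial = 2 ^ nu n * m := by
  obtain ⟨e, m, hm, he⟩ := Nat.exists_eq_pow_mul_and_not_dvd (Nat.factorial_ne_zero n) 2 (by norm_num)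
  have : nu n = e := by
    unfold nu
    rw [he, padicValNat.mul (by positivity) (by rintro rfl; simp at hm),
      padicValNat.prime_pow, padicValNat.eq_zero_of_not_dvd hm, add_zero]
  exact ⟨m, hm, by rw [this]; exact he⟩

theorem d_fac (n i : ℕ) (h : i ≤ n) : d n i * ((n - i).factorial * i.factorial * i.factorial) =
    (n + i).factorial := by
  have h1 := Nat.choose_mul_factorial_mul_factorial h
  have h2 := Nat.choose_mul_factorial_mul_factorial (show i ≤ n + i by omega)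
  rw [Nat.add_sub_cancel] at h2
  unfold d
  calc n.choose i * (n + i).choose i * ((n - i).factorial * i.factorial * i.factorial) =
      (n + i).choose i * i.factorial * (n.choose i * i.factorial * (n - i).factorial) := by ring
    _ = _ := by rw [h1, h2]

/-- `2^ν d_n(i) / 2^i`. -/
theorem x_form (n i : ℕ) (h : i ≤ n) : ∃ c : ℕ, ∃ m : ℕ, ¬ 2 ∣ m ∧ n.factorial = 2 ^ nu n * m ∧
    (2 : ℚ) ^ nu n * v n i = 2 ^ ((n + i) / 2 - i) * ((n.choose i * c * W ((n + i + 1) / 2) : ℕ) : ℚ) / m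
    ∧ (i + 1 ≥ n → c = 1) := by
  obtain ⟨m, hm, hf⟩ := nu_spec n
  have hai : i ≤ (n + i) / 2 := by omega
  obtain ⟨c, hc⟩ := Nat.factorial_dvd_factorial hai
  have hm0 : (m : ℚ) ≠ 0 := by
    have : m ≠ 0 := by rintro rfl; simp at hm
    exact_mod_cast this
  refine ⟨c, m, hm, hf, ?_, ?_⟩
  · have h1 := d_fac n i h
    have h2 := fac_gen (n + i)
    have h3 := Nat.choose_mul_factorial_mul_factorial h
    rw [h2, hc] at h1
    have hq1 := congrArg (Nat.cast : ℕ → ℚ) h1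
    have hq2 := congrArg (Nat.cast : ℕ → ℚ) hf
    have hq3 := congrArg (Nat.cast : ℕ → ℚ) h3
    push_cast at hq1 hq2 hq3
    have hpow : (2 : ℚ) ^ ((n + i) / 2) = 2 ^ ((n + i) / 2 - i) * 2 ^ i := by
      rw [← pow_add]; congr 1; omega
    have f1 : ((n - i).factorial : ℚ) ≠ 0 := by exact_mod_cast Nat.factorial_ne_zero _
    have f2 : (i.factorial : ℚ) ≠ 0 := by exact_mod_cast Nat.factorial_ne_zero _
    have f3 : (n.factorial : ℚ) ≠ 0 := by exact_mod_cast Nat.factorial_ne_zero _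
    have f4 : (2 : ℚ) ^ i ≠ 0 := by positivity
    have ht : ((1 / 2 : ℚ) ^ i) * 2 ^ i = 1 := by rw [← mul_pow]; norm_num
    unfold v
    push_cast
    rw [eq_div_iff hm0]
    have f5 : ((n - i).factorial : ℚ) * i.factorial * i.factorial ≠ 0 := by positivity
    apply mul_right_cancel₀ f5
    rw [hpow] at hq1
    linear_combination (-((1 / 2 : ℚ) ^ i * d n i * ((n - i).factorial * i.factorial * i.factorial))) * hq2
      + n.factorial * (1 / 2 : ℚ) ^ i * hq1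
      + n.factorial * 2 ^ ((n + i) / 2 - i) * i.factorial * c * W ((n + i + 1) / 2) * ht
      - (2 : ℚ) ^ ((n + i) / 2 - i) * c * W ((n + i + 1) / 2) * i.factorial * hq3
  · intro hi
    have : (n + i) / 2 = i := by omega
    rw [this] at hc
    exact Nat.eq_of_mul_eq_mul_left (Nat.factorial_pos i) (by rw [← hc, mul_one])


/-- an integer that is a multiple of `4`. -/
theorem PO4 (z : ℤ) (h : (4 : ℤ) ∣ z) : PO 2 2 (z : ℚ) := PO_int 2 2 z (by norm_num; exact h)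

theorem odd_sq_sub (W m : ℕ) (hW : ¬ 2 ∣ W) (hm : ¬ 2 ∣ m) : PO 2 2 (((W : ℚ) / m) ^ 2 - 1) := by
  have hm0 : (m : ℚ) ≠ 0 := by
    have : m ≠ 0 := by rintro rfl; simp at hm
    exact_mod_cast this
  have h1 : PO 2 2 ((((W : ℤ) ^ 2 - (m : ℤ) ^ 2 : ℤ)) : ℚ) := by
    apply PO4
    obtain ⟨a, ha⟩ : ∃ a, W = 2 * a + 1 := ⟨W / 2, by omega⟩
    obtain ⟨b, hb⟩ : ∃ b, m = 2 * b + 1 := ⟨m / 2, by omega⟩
    rw [ha, hb]
    refine ⟨(a : ℤ) ^ 2 + a - b ^ 2 - b, ?_⟩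
    push_cast; ring
  have h2 : PO 2 0 (((m : ℚ)⁻¹) ^ 2) := (PO.inv_nat hm).pow0 2
  have : ((W : ℚ) / m) ^ 2 - 1 = ((((W : ℤ) ^ 2 - (m : ℤ) ^ 2 : ℤ)) : ℚ) * ((m : ℚ)⁻¹) ^ 2 := by
    push_cast
    field_simp
  rw [this]
  exact h1.mul0' h2

theorem fac_m_unique {n m m' : ℕ} (h : n.factorial = 2 ^ nu n * m) (h' : n.factorial = 2 ^ nu n * m') :
    m = m' := Nat.eq_of_mul_eq_mul_left (by positivity : 0 < 2 ^ nu n) (by rw [← h, ← h'])

/-- `α_n = 4^ν A_n(1/4)`. -/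
noncomputable def alpha (n : ℕ) : ℚ := 4 ^ nu n * A n

theorem A_v (n : ℕ) : A n = ∑ i ∈ range (n + 1), v n i ^ 2 := by
  rw [A_eq n (n + 1) le_rfl]
  refine sum_congr rfl fun i _ => ?_
  rw [u_v, mul_pow, ← pow_mul, mul_comm i 2, pow_mul]
  norm_num

theorem alpha_eq (n : ℕ) : alpha n = ∑ i ∈ range (n + 1), ((2 : ℚ) ^ nu n * v n i) ^ 2 := by
  unfold alpha
  rw [A_v, mul_sum]
  refine sum_congr rfl fun i _ => ?_
  rw [mul_pow, ← pow_mul, mul_comm (nu n) 2, pow_mul]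
  norm_num

theorem x_low (n i : ℕ) (h : i + 2 ≤ n) : PO 2 1 ((2 : ℚ) ^ nu n * v n i) := by
  obtain ⟨c, m, hm, _, he, _⟩ := x_form n i (by omega)
  rw [he]
  obtain ⟨k, hk⟩ : ∃ k, (n + i) / 2 - i = 1 + k := ⟨(n + i) / 2 - i - 1, by omega⟩
  rw [hk, div_eq_mul_inv, pow_add]
  have h1 : PO 2 1 ((2 : ℚ) ^ 1) := by exact_mod_cast PO.ppow (p := 2) 1
  have h2 : PO 2 0 ((2 : ℚ) ^ k) := by
    have := (PO.of_nat (p := 2) 2).pow0 k
    exact_mod_cast this
  exact ((h1.mul0' h2).mul0' (PO.of_nat _)).mul0' (PO.inv_nat hm)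

theorem alpha_mod (n : ℕ) : PO 2 2 (alpha n - (1 + (n : ℚ) ^ 2)) := by
  rw [alpha_eq]
  obtain ⟨m, hm, hf⟩ := nu_spec n
  have hlast : (2 : ℚ) ^ nu n * v n n = (W n : ℚ) / m := by
    obtain ⟨c, m', hm', hf', he, hc⟩ := x_form n n le_rfl
    rw [fac_m_unique hf hf', he, hc (by omega), show (n + n) / 2 - n = 0 by omega,
      show (n + n + 1) / 2 = n by omega]
    simp
  have hκ := odd_sq_sub (W n) m (W_odd n) hm
  rcases n with _ | n
  · rw [sum_range_one, hlast]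
    have : ((W 0 : ℚ) / m) ^ 2 - (1 + ((0 : ℕ) : ℚ) ^ 2) = ((W 0 : ℚ) / m) ^ 2 - 1 := by
      push_cast; ring
    rw [this]; exact hκ
  · have hprev : (2 : ℚ) ^ nu (n + 1) * v (n + 1) n = ((n : ℚ) + 1) * ((W (n + 1) : ℚ) / m) := by
      obtain ⟨c, m', hm', hf', he, hc⟩ := x_form (n + 1) n (by omega)
      rw [fac_m_unique hf hf', he, hc (by omega), show (n + 1 + n) / 2 - n = 0 by omega,
        show (n + 1 + n + 1) / 2 = n + 1 by omega]
      simp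
      ring
    rw [sum_range_succ, sum_range_succ, hlast, hprev]
    have hlow : PO 2 2 (∑ i ∈ range n, ((2 : ℚ) ^ nu (n + 1) * v (n + 1) i) ^ 2) := by
      apply PO.sum
      intro i hi
      exact (x_low (n + 1) i (by have := mem_range.1 hi; omega)).pow 2
    have h3 := (((PO.of_nat (p := 2) 1).add ((PO.of_nat (p := 2) (n + 1)).pow0 2))).mul0 hκ
    have e : ∑ i ∈ range n, ((2 : ℚ) ^ nu (n + 1) * v (n + 1) i) ^ 2 +
        (((n : ℚ) + 1) * ((W (n + 1) : ℚ) / m)) ^ 2 + ((W (n + 1) : ℚ) / m) ^ 2 -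
        (1 + (((n + 1 : ℕ) : ℚ)) ^ 2) = ∑ i ∈ range n, ((2 : ℚ) ^ nu (n + 1) * v (n + 1) i) ^ 2 +
        (((1 : ℕ) : ℚ) + ((n + 1 : ℕ) : ℚ) ^ 2) * (((W (n + 1) : ℚ) / m) ^ 2 - 1) := by
      push_cast; ring
    rw [e]
    exact hlow.add h3

theorem nu_succ (n : ℕ) : ∃ a o : ℕ, ¬ 2 ∣ o ∧ n + 1 = 2 ^ a * o ∧ nu (n + 1) = a + nu n := by
  obtain ⟨a, o, ho, he'⟩ := Nat.exists_eq_pow_mul_and_not_dvd (Nat.succ_ne_zero n) 2 (by norm_num)
  have he : n + 1 = 2 ^ a * o := he'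
  refine ⟨a, o, ho, he, ?_⟩
  unfold nu
  rw [Nat.factorial_succ, padicValNat.mul (by omega) (Nat.factorial_ne_zero n)]
  congr 1
  rw [he, padicValNat.mul (by positivity) (by rintro rfl; simp at ho),
    padicValNat.prime_pow, padicValNat.eq_zero_of_not_dvd ho, add_zero]

theorem s_succ (n : ℕ) : ((n : ℚ) + 1) ^ 2 * s (n + 1) = (n : ℚ) ^ 2 * s n + (2 * (n : ℚ) + 1) * (-1) ^ n * A n := by
  have hn : ((n : ℚ) + 1) ≠ 0 := by positivity
  have h1 : ((n : ℚ) + 1) ^ 2 * s (n + 1) = T (n + 1) := by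
    unfold s; push_cast; field_simp
  have h2 : (n : ℚ) ^ 2 * s n = T n := by
    rcases n with _ | n
    · simp [T]
    · unfold s
      have hn : (((n + 1 : ℕ) : ℚ)) ≠ 0 := by positivity
      field_simp
  rw [h1, h2]
  unfold T
  rw [sum_range_succ]

/-- `4^ν s(n)` is a `2`-adic integer, `≡ 1` for odd `n` and `≡ 3 (mod 4)` for even `n`. -/
theorem s_two (N : ℕ) : PO 2 2 (4 ^ nu (N + 1) * s (N + 1) - (-1) ^ N) := by
  have hs : ∀ k : ℕ, PO 2 0 ((-1 : ℚ) ^ k) := fun k => (PO.one.neg).pow0 k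
  have step : ∀ n : ℕ, PO 2 2 ((n : ℚ) ^ 2 * (4 ^ nu n * s n + (-1) ^ n)) →
      PO 2 2 (4 ^ nu (n + 1) * s (n + 1) - (-1) ^ n) := by
    intro n hn
    obtain ⟨a, o, ho, he, hv⟩ := nu_succ n
    have hα := (((PO.of_nat (p := 2) (2 * n + 1)).mul0 (hs n))).mul0 (alpha_mod n)
    have hz : PO 2 2 ((((2 * (n : ℤ) * (n ^ 2 + 1) + (1 - (o : ℤ) ^ 2)) : ℤ)) : ℚ) := by
      apply PO4
      obtain ⟨b, hb⟩ : ∃ b, o = 2 * b + 1 := ⟨o / 2, by omega⟩
      rw [hb]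
      have h2 : (2 : ℤ) ∣ (n : ℤ) * (n ^ 2 + 1) := by
        rcases Nat.even_or_odd n with ⟨c, hc⟩ | ⟨c, hc⟩
        · exact Dvd.dvd.mul_right (⟨(c : ℤ), by rw [hc]; push_cast; ring⟩ : (2 : ℤ) ∣ (n : ℤ)) _
        · exact Dvd.dvd.mul_left (⟨2 * (c : ℤ) ^ 2 + 2 * c + 1, by rw [hc]; push_cast; ring⟩ :
            (2 : ℤ) ∣ (n : ℤ) ^ 2 + 1) _
      obtain ⟨c, hc⟩ := h2
      refine ⟨c - b ^ 2 - b, ?_⟩
      push_cast
      linear_combination 2 * hc
    have hz' := (hs n).mul0 hz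
    have ho0 : (o : ℚ) ≠ 0 := by
      have : o ≠ 0 := by rintro rfl; simp at ho
      exact_mod_cast this
    have hpow : ((n : ℚ) + 1) ^ 2 * 4 ^ nu n = (o : ℚ) ^ 2 * 4 ^ nu (n + 1) := by
      have : ((n : ℚ) + 1) = 2 ^ a * o := by exact_mod_cast he
      rw [this, hv, pow_add, mul_pow, ← pow_mul, mul_comm a 2, pow_mul]
      norm_num
      ring
    have hs1 := s_succ n
    have key : (o : ℚ) ^ 2 * (4 ^ nu (n + 1) * s (n + 1) - (-1) ^ n) =
        (n : ℚ) ^ 2 * (4 ^ nu n * s n + (-1) ^ n) +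
        ((2 * n + 1 : ℕ) : ℚ) * (-1) ^ n * (alpha n - (1 + (n : ℚ) ^ 2)) +
        (-1) ^ n * ((((2 * (n : ℤ) * (n ^ 2 + 1) + (1 - (o : ℤ) ^ 2)) : ℤ)) : ℚ) := by
      unfold alpha
      push_cast
      linear_combination (-s (n + 1)) * hpow + 4 ^ nu n * hs1
    have tot := (hn.add hα).add hz'
    rw [← key] at tot
    have h2 : PO 2 0 (((o : ℚ)⁻¹) ^ 2) := (PO.inv_nat ho).pow0 2
    have := h2.mul0 tot
    have e : ((o : ℚ)⁻¹) ^ 2 * ((o : ℚ) ^ 2 * (4 ^ nu (n + 1) * s (n + 1) - (-1) ^ n)) =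
        4 ^ nu (n + 1) * s (n + 1) - (-1) ^ n := by
      field_simp
    rwa [e] at this
  induction N with
  | zero =>
    apply step
    simp only [Nat.cast_zero]
    norm_num
    exact PO.zero 2
  | succ N ih =>
    apply step
    have := ((PO.of_nat (p := 2) (N + 1)).pow0 2).mul0 ih
    have e : (((N + 1 : ℕ) : ℚ)) ^ 2 * (4 ^ nu (N + 1) * s (N + 1) + (-1) ^ (N + 1)) =
      (((N + 1 : ℕ) : ℚ)) ^ 2 * (4 ^ nu (N + 1) * s (N + 1) - (-1) ^ N) := by
      rw [pow_succ (-1 : ℚ) N]; ring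
    rw [e]; exact this

end Pool.Agent.Q277.DC
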